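import Mathlib

/-!
Balanced families of symmetric commuting zero-one matrices over a commutative ring, their direct
sums and tensor products, and the passage to modular Hadamard matrices (Williamson array).
-/

set_option autoImplicit false

namespace Pool.Agent.MP_d8b1b3_co.ModA

open Matrix
open scoped Kronecker

variable {R : Type} [CommRing R]

/-- the all-ones matrix -/
def Jm (R : Type) [CommRing R] (V : Type) : Matrix V V R := Matrix.of fun _ _ => 1

/-- A family of symmetric commuting zero-one matrices with row sums `k i` whose squares add up to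
a scalar matrix. -/
structure Bal {ι V : Type} [Fintype ι] [Fintype V] [DecidableEq V] (k : ι → R)
    (N : ι → Matrix V V R) : Prop where
  bin : ∀ i x y, N i x y = 0 ∨ N i x y = 1
  symm : ∀ i, (N i)ᵀ = N i
  comm : ∀ i j, N i * N j = N j * N i
  row : ∀ i x, ∑ y, N i x y = k i
  sq : ∑ i, N i * N i = (∑ i, k i) • (1 : Matrix V V R)

/-- a balanced family of order `n` exists -/
def HasBal {ι : Type} [Fintype ι] (k : ι → R) (n : ℕ) : Prop :=
  ∃ N : ι → Matrix (Fin n) (Fin n) R, Bal k N

section

variable {ι : Type} [Fintype ι]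

lemma Bal.submatrix {V W : Type} [Fintype V] [DecidableEq V] [Fintype W] [DecidableEq W]
    {k : ι → R} {N : ι → Matrix V V R} (h : Bal k N) (e : W ≃ V) :
    Bal k (fun i => (N i).submatrix e e) where
  bin i x y := h.bin i _ _
  symm i := by rw [Matrix.transpose_submatrix, h.symm]
  comm i j := by rw [Matrix.submatrix_mul_equiv, Matrix.submatrix_mul_equiv, h.comm]
  row i x := by
    simp only [Matrix.submatrix_apply]
    rw [Equiv.sum_comp e (fun y => N i (e x) y), h.row]
  sq := by
    simp only [Matrix.submatrix_mul_equiv]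
    ext x y
    have := congrFun (congrFun h.sq (e x)) (e y)
    simp only [Matrix.sum_apply, Matrix.smul_apply, Matrix.one_apply, e.injective.eq_iff,
      Matrix.submatrix_apply] at this ⊢
    exact this

lemma Bal.has {V : Type} [Fintype V] [DecidableEq V] {k : ι → R} {N : ι → Matrix V V R}
    (h : Bal k N) {n : ℕ} (hn : Fintype.card V = n) : HasBal k n :=
  ⟨_, h.submatrix (Fintype.equivFinOfCardEq hn).symm⟩

lemma Bal.sum {V W : Type} [Fintype V] [DecidableEq V] [Fintype W] [DecidableEq W]
    {k : ι → R} {N : ι → Matrix V V R} {N' : ι → Matrix W W R} (h : Bal k N) (h' : Bal k N') :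
    Bal k (fun i => fromBlocks (N i) 0 0 (N' i)) where
  bin i x y := by
    rcases x with x | x <;> rcases y with y | y
    · exact h.bin i x y
    · left; rfl
    · left; rfl
    · exact h'.bin i x y
  symm i := by rw [fromBlocks_transpose, h.symm, h'.symm]; simp
  comm i j := by
    rw [fromBlocks_multiply, fromBlocks_multiply, h.comm i j, h'.comm i j]; simp
  row i x := by
    rcases x with x | x
    · simp [Fintype.sum_sum_type, h.row]
    · simp [Fintype.sum_sum_type, h'.row]
  sq := by
    simp only [fromBlocks_multiply, Matrix.mul_zero, Matrix.zero_mul, add_zero, zero_add]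
    ext x y
    rcases x with x | x <;> rcases y with y | y
    · have := congrFun (congrFun h.sq x) y
      simpa [Matrix.sum_apply, Matrix.one_apply] using this
    · simp [Matrix.sum_apply]
    · simp [Matrix.sum_apply]
    · have := congrFun (congrFun h'.sq x) y
      simpa [Matrix.sum_apply, Matrix.one_apply] using this

lemma HasBal.zero (k : ι → R) : HasBal k 0 :=
  ⟨fun _ => 0, ⟨fun _ x => x.elim0, fun _ => by simp, fun _ _ => rfl, fun _ x => x.elim0,
    by ext x; exact x.elim0⟩⟩

lemma HasBal.add {k : ι → R} {a b : ℕ} (h : HasBal k a) (h' : HasBal k b) : HasBal k (a + b) := by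
  obtain ⟨N, hN⟩ := h
  obtain ⟨N', hN'⟩ := h'
  exact (hN.sum hN').has (by simp)

lemma HasBal.nsmul {k : ι → R} {a : ℕ} (h : HasBal k a) (t : ℕ) : HasBal k (t * a) := by
  induction t with
  | zero => simpa using HasBal.zero k
  | succ t ih => rw [Nat.succ_mul]; exact ih.add h

/-- balanced families exist in all large orders -/
def Cof (k : ι → R) : Prop := ∃ n0, ∀ n, n0 ≤ n → HasBal k n

lemma cof_of_coprime {k : ι → R} {a b : ℕ} (ha : HasBal k a) (hb : HasBal k b)
    (hab : Nat.Coprime a b) : Cof k := by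
  refine ⟨a.pred * b.pred, fun n hn => ?_⟩
  obtain ⟨x, y, rfl⟩ := Nat.exists_add_mul_eq_of_gcd_dvd_of_mul_pred_le a b n
    (by rw [hab]; exact one_dvd _) hn
  exact (ha.nsmul x).add (hb.nsmul y)

lemma kron_tr {V W : Type} (X : Matrix V V R) (Y : Matrix W W R) :
    (X ⊗ₖ Y)ᵀ = Xᵀ ⊗ₖ Yᵀ := by
  rw [← kroneckerMap_transpose]

lemma bin_mul {a b : R} (ha : a = 0 ∨ a = 1) (hb : b = 0 ∨ b = 1) : a * b = 0 ∨ a * b = 1 := by
  rcases ha with rfl | rfl <;> rcases hb with rfl | rfl <;> simp

lemma bin_one {V : Type} [DecidableEq V] (x y : V) :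
    (1 : Matrix V V R) x y = 0 ∨ (1 : Matrix V V R) x y = 1 := by
  rw [Matrix.one_apply]; split_ifs <;> simp

lemma sum_kron {V W : Type} (A : ι → Matrix V V R) (B : Matrix W W R) :
    ∑ i, A i ⊗ₖ B = (∑ i, A i) ⊗ₖ B := by
  ext ⟨x, y⟩ ⟨x', y'⟩
  simp [Matrix.sum_apply, Finset.sum_mul]

lemma kron_sum {V W : Type} (B : Matrix V V R) (A : ι → Matrix W W R) :
    ∑ i, B ⊗ₖ A i = B ⊗ₖ (∑ i, A i) := by
  ext ⟨x, y⟩ ⟨x', y'⟩
  simp [Matrix.sum_apply, Finset.mul_sum]

/-- the additive law -/
lemma Bal.join {κ V W : Type} [Fintype κ] [Fintype V] [DecidableEq V] [Fintype W] [DecidableEq W]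
    {k : ι → R} {k' : κ → R} {N : ι → Matrix V V R} {N' : κ → Matrix W W R}
    (h : Bal k N) (h' : Bal k' N') :
    Bal (Sum.elim k k') (Sum.elim (fun i => N i ⊗ₖ (1 : Matrix W W R))
      (fun j => (1 : Matrix V V R) ⊗ₖ N' j)) where
  bin i x y := by
    rcases i with i | i
    · exact bin_mul (h.bin i _ _) (bin_one _ _)
    · exact bin_mul (bin_one _ _) (h'.bin i _ _)
  symm i := by
    rcases i with i | i
    · simp only [Sum.elim_inl]; rw [kron_tr, h.symm, Matrix.transpose_one]
    · simp only [Sum.elim_inr]; rw [kron_tr, h'.symm, Matrix.transpose_one]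
  comm i j := by
    rcases i with i | i <;> rcases j with j | j <;>
      simp only [Sum.elim_inl, Sum.elim_inr, ← mul_kronecker_mul, Matrix.mul_one, Matrix.one_mul]
    · rw [h.comm]
    · rw [h'.comm]
  row i x := by
    rcases i with i | i
    · simp [Fintype.sum_prod_type, Matrix.one_apply, h.row]
    · simp [Fintype.sum_prod_type, Matrix.one_apply, h'.row]
  sq := by
    simp only [Fintype.sum_sum_type, Sum.elim_inl, Sum.elim_inr, ← mul_kronecker_mul,
      Matrix.mul_one]
    rw [sum_kron, kron_sum, h.sq, h'.sq, smul_kronecker, kronecker_smul, one_kronecker_one,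
      add_smul]

lemma Cof.join {κ : Type} [Fintype κ] {k : ι → R} {k' : κ → R} (h : Cof k) (h' : Cof k') :
    Cof (Sum.elim k k') := by
  obtain ⟨a, ha⟩ := h
  obtain ⟨b, hb⟩ := h'
  have key : ∀ n, a + b ≤ n → HasBal (Sum.elim k k') (n * n) := by
    intro n hn
    obtain ⟨N, hN⟩ := ha n (by omega)
    obtain ⟨N', hN'⟩ := hb n (by omega)
    exact (hN.join hN').has (by simp)
  refine cof_of_coprime (key (a + b) le_rfl) (key (a + b + 1) (by omega)) ?_
  have : Nat.Coprime (a + b) (a + b + 1) := by simp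
  exact Nat.Coprime.mul_left (Nat.Coprime.mul_right this this) (Nat.Coprime.mul_right this this)

/-- the multiplicative law for single blocks -/
lemma Bal.mul {V W : Type} [Fintype V] [DecidableEq V] [Fintype W] [DecidableEq W]
    {e e' : R} {N : Unit → Matrix V V R} {N' : Unit → Matrix W W R}
    (h : Bal (fun _ => e) N) (h' : Bal (fun _ => e') N') :
    Bal (fun _ : Unit => e * e') (fun i => N i ⊗ₖ N' i) where
  bin i x y := bin_mul (h.bin i _ _) (h'.bin i _ _)
  symm i := by rw [kron_tr, h.symm, h'.symm]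
  comm i j := rfl
  row i x := by
    obtain ⟨x, x'⟩ := x
    simp only [Fintype.sum_prod_type, kronecker_apply]
    rw [← Finset.sum_mul_sum, h.row, h'.row]
  sq := by
    have h1 := h.sq
    have h2 := h'.sq
    simp only [Finset.univ_unique, Finset.sum_singleton] at h1 h2 ⊢
    rw [← mul_kronecker_mul, h1, h2, smul_kronecker, kronecker_smul, one_kronecker_one, smul_smul]

lemma Cof.mul {e e' : R} (h : Cof (fun _ : Unit => e)) (h' : Cof (fun _ : Unit => e')) :
    Cof (fun _ : Unit => e * e') := by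
  obtain ⟨a, ha⟩ := h
  obtain ⟨b, hb⟩ := h'
  have key : ∀ n, a + b ≤ n → HasBal (fun _ : Unit => e * e') (n * n) := by
    intro n hn
    obtain ⟨N, hN⟩ := ha n (by omega)
    obtain ⟨N', hN'⟩ := hb n (by omega)
    exact (hN.mul hN').has (by simp)
  refine cof_of_coprime (key (a + b) le_rfl) (key (a + b + 1) (by omega)) ?_
  have : Nat.Coprime (a + b) (a + b + 1) := by simp
  exact Nat.Coprime.mul_left (Nat.Coprime.mul_right this this) (Nat.Coprime.mul_right this this)

lemma cof_one : Cof (fun _ : Unit => (1 : R)) := by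
  have : HasBal (fun _ : Unit => (1 : R)) 1 :=
    ⟨fun _ => 1, ⟨fun _ x y => bin_one x y, fun _ => by simp, fun _ _ => rfl,
      fun _ x => by rw [Subsingleton.elim x 0]; simp, by simp⟩⟩
  exact cof_of_coprime this this (by simp)

end

/-- a sign matrix with orthogonal rows over `R` -/
def MH (R : Type) [CommRing R] (V : Type) [Fintype V] [DecidableEq V] : Prop :=
  ∃ (X : Matrix V V R) (c : R), (∀ x y, X x y = 1 ∨ X x y = -1) ∧ X * Xᵀ = c • 1

lemma MH.of_card {V W : Type} [Fintype V] [DecidableEq V] [Fintype W] [DecidableEq W]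
    (h : MH R V) (hc : Fintype.card W = Fintype.card V) : MH R W := by
  obtain ⟨H, c, h1, h2⟩ := h
  let e : W ≃ V := Fintype.equivOfCardEq hc
  refine ⟨H.submatrix e e, c, fun i j => h1 _ _, ?_⟩
  rw [Matrix.transpose_submatrix, Matrix.submatrix_mul_equiv, h2]
  ext i j
  simp only [Matrix.submatrix_apply, Matrix.smul_apply, Matrix.one_apply, e.injective.eq_iff]

lemma MH.prod {V W : Type} [Fintype V] [DecidableEq V] [Fintype W] [DecidableEq W]
    (h : MH R V) (h' : MH R W) : MH R (V × W) := by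
  obtain ⟨H, c, h1, h2⟩ := h
  obtain ⟨K, d, k1, k2⟩ := h'
  refine ⟨H ⊗ₖ K, c * d, ?_, ?_⟩
  · rintro ⟨i, j⟩ ⟨i', j'⟩
    rw [kronecker_apply]
    rcases h1 i i' with h | h <;> rcases k1 j j' with k | k <;> simp [h, k]
  · rw [kron_tr, ← mul_kronecker_mul, h2, k2, smul_kronecker, kronecker_smul, one_kronecker_one,
      smul_smul]

lemma mh_two : MH R (Fin 2) := by
  refine ⟨!![1, 1; 1, -1], 2, ?_, ?_⟩
  · intro x y; fin_cases x <;> fin_cases y <;> simp
  · ext x y
    fin_cases x <;> fin_cases y <;> simp [Matrix.mul_apply, Fin.sum_univ_two] <;> norm_num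

lemma MH.two_pow {n : ℕ} (h : MH R (Fin n)) (s : ℕ) : MH R (Fin (2 ^ s * n)) := by
  induction s with
  | zero => exact h.of_card (by simp)
  | succ s ih => exact (mh_two.prod ih).of_card (by simp; ring)

/-- Williamson array -/
lemma williamson {V : Type} [Fintype V] [DecidableEq V] (A B C D : Matrix V V R) (c : R)
    (hA : ∀ x y, A x y = 1 ∨ A x y = -1) (hB : ∀ x y, B x y = 1 ∨ B x y = -1)
    (hC : ∀ x y, C x y = 1 ∨ C x y = -1) (hD : ∀ x y, D x y = 1 ∨ D x y = -1)
    (sA : Aᵀ = A) (sB : Bᵀ = B) (sC : Cᵀ = C) (sD : Dᵀ = D)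
    (hAB : B * A = A * B) (hAC : C * A = A * C) (hAD : D * A = A * D) (hBC : C * B = B * C)
    (hBD : D * B = B * D) (hCD : D * C = C * D)
    (hsq : A * A + B * B + C * C + D * D = c • 1) : MH R ((V ⊕ V) ⊕ (V ⊕ V)) := by
  have neg : ∀ {a : R}, (a = 1 ∨ a = -1) → (-a = 1 ∨ -a = -1) := by
    rintro a (rfl | rfl) <;> simp
  refine ⟨fromBlocks (fromBlocks A B (-B) A) (fromBlocks C D (-D) C)
    (fromBlocks (-C) D (-D) (-C)) (fromBlocks A (-B) B A), c, ?_, ?_⟩
  · rintro ((x | x) | (x | x)) ((y | y) | (y | y)) <;>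
      simp only [fromBlocks_apply₁₁, fromBlocks_apply₁₂, fromBlocks_apply₂₁, fromBlocks_apply₂₂,
        Matrix.neg_apply] <;>
      first | exact hA _ _ | exact hB _ _ | exact hC _ _ | exact hD _ _ | exact neg (hB _ _) |
        exact neg (hC _ _) | exact neg (hD _ _)
  · rw [← fromBlocks_one, ← fromBlocks_one, fromBlocks_smul, fromBlocks_smul]
    simp only [fromBlocks_transpose, fromBlocks_multiply, Matrix.transpose_neg, sA, sB, sC, sD,
      fromBlocks_add, Matrix.neg_mul, Matrix.mul_neg, neg_neg, hAB, hAC, hAD, hBC, hBD, hCD,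
      smul_zero, ← hsq]
    rw [← fromBlocks_zero]
    congr 1 <;> congr 1 <;> abel

lemma Bal.J_mul {ι V : Type} [Fintype ι] [Fintype V] [DecidableEq V] {k : ι → R}
    {N : ι → Matrix V V R} (h : Bal k N) (i : ι) :
    N i * Jm R V = k i • Jm R V ∧ Jm R V * N i = k i • Jm R V := by
  have h1 : N i * Jm R V = k i • Jm R V := by
    ext x y; simp [Matrix.mul_apply, Jm, h.row]
  refine ⟨h1, ?_⟩
  have := congrArg Matrix.transpose h1
  rw [Matrix.transpose_mul, h.symm, Matrix.transpose_smul] at this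
  exact this

lemma J_mul_J (V : Type) [Fintype V] : Jm R V * Jm R V = (Fintype.card V : R) • Jm R V := by
  ext x y; simp [Matrix.mul_apply, Jm]

/-- A balanced family of four matrices whose order is the sum of the row sums gives a modular
Hadamard matrix of four times the order. -/
lemma HasBal.mh {k : (Fin 2 ⊕ (Unit ⊕ Unit)) → R} {g : ℕ} (h : HasBal k g)
    (hg : (g : R) = ∑ i, k i) : MH R (Fin (4 * g)) := by
  obtain ⟨N, hN⟩ := h
  let X : (Fin 2 ⊕ (Unit ⊕ Unit)) → Matrix (Fin g) (Fin g) R := fun i => Jm R _ - (2 : R) • N i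
  have pm : ∀ i x y, X i x y = 1 ∨ X i x y = -1 := by
    intro i x y
    simp only [X, Jm, Matrix.sub_apply, Matrix.of_apply, Matrix.smul_apply, smul_eq_mul]
    rcases hN.bin i x y with h | h <;> rw [h]
    · left; ring
    · right; ring
  have sy : ∀ i, (X i)ᵀ = X i := by
    intro i
    simp only [X, Matrix.transpose_sub, Matrix.transpose_smul, hN.symm]
    rfl
  have mu : ∀ i j, X i * X j = ((g : R) - 2 * k i - 2 * k j) • Jm R _ + (4 : R) • (N i * N j) := by
    intro i j
    simp only [X, Matrix.sub_mul, Matrix.mul_sub, Matrix.smul_mul, Matrix.mul_smul, J_mul_J,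
      (hN.J_mul i).1, (hN.J_mul j).2, Fintype.card_fin]
    module
  have co : ∀ i j, X i * X j = X j * X i := by
    intro i j
    rw [mu, mu, hN.comm i j]
    congr 2; ring
  have hs := hN.sq
  simp only [Fintype.sum_sum_type, Fin.sum_univ_two, Finset.univ_unique, Finset.sum_singleton]
    at hs hg
  refine (williamson (X (.inl 0)) (X (.inl 1)) (X (.inr (.inl ()))) (X (.inr (.inr ())))
    (4 * g) (pm _) (pm _) (pm _) (pm _) (sy _) (sy _) (sy _) (sy _) (co _ _) (co _ _) (co _ _)
    (co _ _) (co _ _) (co _ _) ?_).of_card (by simp; ring)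
  rw [mu, mu, mu, mu, mul_smul, hg, ← hs]
  module

end Pool.Agent.MP_d8b1b3_co.ModA
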