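import Mathlib
import Pool.Agent.MP_d8b1b3_co.ModA.Blocks

/-!
The point-hyperplane designs of finite projective spaces as balanced families.
-/

set_option autoImplicit false

namespace Pool.Agent.MP_d8b1b3_co.ModA

open Matrix
open scoped LinearAlgebra.Projectivization

/-- `1 + q + ... + q ^ (n - 1)` -/
def gs (q n : ℕ) : ℕ := ∑ i ∈ Finset.range n, q ^ i

lemma gs_succ (q n : ℕ) : gs q (n + 1) = gs q n + q ^ n := by
  simp [gs, Finset.sum_range_succ]

lemma gs_add (q a b : ℕ) : gs q (a + b) = gs q a + q ^ a * gs q b := by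
  simp [gs, Finset.sum_range_add, Finset.mul_sum, pow_add]

lemma gs_mul (q n : ℕ) : ((q : ℤ) - 1) * (gs q n : ℤ) = (q : ℤ) ^ n - 1 := by
  simp only [gs]
  push_cast
  rw [mul_comm, geom_sum_mul]

/-- every zero-one pattern of size `r` occurs as a submatrix -/
def Univ {R V : Type} [CommRing R] (r : ℕ) (D : Matrix V V R) : Prop :=
  ∀ π : Fin r → Fin r → Bool, ∃ f g : Fin r → V, Function.Injective f ∧ Function.Injective g ∧
    ∀ a b, D (f a) (g b) = if π a b then 1 else 0

lemma Univ.submatrix {R V W : Type} [CommRing R] {r : ℕ} {D : Matrix V V R} (h : Univ r D)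
    (e : W ≃ V) : Univ r (D.submatrix e e) := by
  intro π
  obtain ⟨f, g, hf, hg, hD⟩ := h π
  exact ⟨fun a => e.symm (f a), fun a => e.symm (g a), e.symm.injective.comp hf,
    e.symm.injective.comp hg, fun a b => by simpa using hD a b⟩

section

variable {F : Type} [Field F] [Fintype F]

omit [Fintype F] in
lemma rep_dot {d : ℕ} (v w : Fin d → F) (hv : v ≠ 0) (hw : w ≠ 0) :
    (Projectivization.mk F v hv).rep ⬝ᵥ (Projectivization.mk F w hw).rep = 0 ↔ v ⬝ᵥ w = 0 := by
  obtain ⟨a, ha⟩ := Projectivization.exists_smul_eq_mk_rep F v hv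
  obtain ⟨c, hc⟩ := Projectivization.exists_smul_eq_mk_rep F w hw
  rw [← ha, ← hc, Units.smul_def, Units.smul_def, smul_dotProduct, dotProduct_smul]
  simp

omit [Fintype F] in
lemma univ_proj (R : Type) [CommRing R] [DecidableEq F] {d r : ℕ} (h : r + r ≤ d) :
    Univ r (Matrix.of fun x y : ℙ F (Fin d → F) =>
      if x.rep ⬝ᵥ y.rep = 0 then (1 : R) else 0) := by
  classical
  intro π
  let i1 : Fin r → Fin d := fun a => ⟨a, by omega⟩
  let i2 : Fin r → Fin d := fun a => ⟨r + a, by omega⟩
  let v : Fin r → Fin d → F := fun a => Pi.single (i1 a) 1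
  let w : Fin r → Fin d → F := fun b j =>
    if hj : (j : ℕ) < r then (if π ⟨j, hj⟩ b then 0 else 1) else if j = i2 b then 1 else 0
  have hv1 : ∀ a a', v a (i1 a') = if a' = a then 1 else 0 := by
    intro a a'
    simp only [v, Pi.single_apply, i1, Fin.mk.injEq, Fin.val_inj]
  have hw2 : ∀ b b', w b (i2 b') = if b' = b then 1 else 0 := by
    intro b b'
    simp only [w, i2, Fin.mk.injEq, Nat.add_left_cancel_iff, Fin.val_inj]
    rw [dif_neg (by omega)]
  have hv : ∀ a, v a ≠ 0 := fun a h0 => by simpa [h0] using hv1 a a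
  have hw : ∀ b, w b ≠ 0 := fun b h0 => by simpa [h0] using hw2 b b
  refine ⟨fun a => Projectivization.mk F (v a) (hv a), fun b => Projectivization.mk F (w b) (hw b),
    fun a a' haa => ?_, fun b b' hbb => ?_, fun a b => ?_⟩
  · obtain ⟨c, hc⟩ := (Projectivization.mk_eq_mk_iff' F _ _ _ _).1 haa
    have := congrFun hc (i1 a)
    by_contra hne
    simp [hv1, hne] at this
  · obtain ⟨c, hc⟩ := (Projectivization.mk_eq_mk_iff' F _ _ _ _).1 hbb
    have := congrFun hc (i2 b)
    by_contra hne
    simp [hw2, hne] at this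
  · simp only [Matrix.of_apply, rep_dot, v, single_dotProduct, one_mul, w, i1]
    rw [dif_pos a.2]
    cases π a b <;> simp

lemma card_sub {V : Type} [AddCommGroup V] [Module F V] (W : Submodule F V) :
    Nat.card {y : ℙ F V // y.rep ∈ W} = gs (Fintype.card F) (Module.finrank F W) := by
  have h := Projectivization.card_of_finrank F W (n := Module.finrank F W) rfl
  rw [Nat.card_eq_fintype_card (α := F)] at h
  unfold gs
  rw [← h]
  symm
  have hmem : ∀ z : ℙ F W, (Projectivization.map W.subtype W.injective_subtype z).rep ∈ W := by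
    intro z
    induction z using Projectivization.ind with
    | h v hv =>
      rw [Projectivization.map_mk]
      obtain ⟨a, ha⟩ := Projectivization.exists_smul_eq_mk_rep F (W.subtype v)
        (map_zero W.subtype ▸ W.injective_subtype.ne hv)
      rw [← ha]
      exact W.smul_mem _ v.2
  refine Nat.card_congr (Equiv.ofBijective
    (fun z => ⟨Projectivization.map W.subtype W.injective_subtype z, hmem z⟩) ⟨?_, ?_⟩)
  · intro z z' hz
    exact Projectivization.map_injective (τ := RingHom.id F) _ W.injective_subtype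
      (congrArg Subtype.val hz)
  · rintro ⟨y, hy⟩
    refine ⟨Projectivization.mk F (⟨y.rep, hy⟩ : W)
      (fun h0 => y.rep_nonzero (congrArg Subtype.val h0)), ?_⟩
    apply Subtype.ext
    simp only [Projectivization.map_mk]
    exact Projectivization.mk_rep y

lemma card_orth {d : ℕ} {ι : Type} [Fintype ι] (A : Matrix ι (Fin d) F)
    (hA : LinearIndependent F A.row) :
    Nat.card {y : ℙ F (Fin d → F) // ∀ i, A i ⬝ᵥ y.rep = 0} =
      gs (Fintype.card F) (d - Fintype.card ι) := by
  classical
  have h1 := card_sub (LinearMap.ker A.mulVecLin)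
  have h2 := LinearMap.finrank_range_add_finrank_ker A.mulVecLin
  have h3 : A.rank = Fintype.card ι := hA.rank_matrix
  unfold Matrix.rank at h3
  rw [h3, Module.finrank_fin_fun] at h2
  have h4 : Module.finrank F (LinearMap.ker A.mulVecLin) = d - Fintype.card ι := by omega
  rw [h4] at h1
  rw [← h1]
  refine Nat.card_congr (Equiv.subtypeEquivRight fun y => ?_)
  rw [LinearMap.mem_ker, Matrix.mulVecLin_apply]
  constructor
  · intro h; funext i; exact h i
  · intro h i; exact congrFun h i

/-- existence of the point-hyperplane design -/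
lemma exists_design_univ (R : Type) [CommRing R] (F : Type) [Field F] [Fintype F] (b : ℕ) :
    ∃ D : Matrix (Fin (gs (Fintype.card F) (b + 2))) (Fin (gs (Fintype.card F) (b + 2))) R,
      (∀ x y, D x y = 0 ∨ D x y = 1) ∧ Dᵀ = D ∧
      (∀ x, ∑ y, D x y = (gs (Fintype.card F) (b + 1) : R)) ∧
      D * D = ((Fintype.card F : R) ^ b) • 1 + (gs (Fintype.card F) b : R) • Jm R _ ∧
      ∀ r, r + r ≤ b + 2 → Univ r D := by
  classical
  have : Finite (ℙ F (Fin (b + 2) → F)) := inferInstance
  let _ : Fintype (ℙ F (Fin (b + 2) → F)) := Fintype.ofFinite _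
  have hc : Fintype.card (ℙ F (Fin (b + 2) → F)) = gs (Fintype.card F) (b + 2) := by
    rw [← Nat.card_eq_fintype_card,
      Projectivization.card_of_finrank F _ (n := b + 2) (Module.finrank_fin_fun F),
      Nat.card_eq_fintype_card]
    rfl
  let e := (Fintype.equivFinOfCardEq hc).symm
  let D0 : Matrix (ℙ F (Fin (b + 2) → F)) (ℙ F (Fin (b + 2) → F)) R :=
    Matrix.of fun x y => if x.rep ⬝ᵥ y.rep = 0 then 1 else 0
  have row : ∀ x, ∑ y, D0 x y = (gs (Fintype.card F) (b + 1) : R) := by
    intro x
    have h := card_orth (ι := Unit) (Matrix.of fun _ => x.rep)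
      (linearIndependent_unique_iff.2 x.rep_nonzero)
    simp only [Fintype.card_unique] at h
    rw [Nat.card_eq_fintype_card, Fintype.card_subtype] at h
    simp only [D0, Matrix.of_apply, Finset.sum_boole]
    rw [show b + 1 = b + 2 - 1 from rfl, ← h]
    congr 2
    ext y
    simp only [Finset.mem_filter, Finset.mem_univ, true_and]
    exact ⟨fun h _ => h, fun h => h ()⟩
  have sy : D0ᵀ = D0 := by
    ext x y; simp only [D0, Matrix.transpose_apply, Matrix.of_apply, dotProduct_comm]
  have sq : D0 * D0 = ((Fintype.card F : R) ^ b) • 1 + (gs (Fintype.card F) b : R) • Jm R _ := by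
    ext x y
    simp only [Matrix.mul_apply, Matrix.add_apply, Matrix.smul_apply, Matrix.one_apply, Jm,
      Matrix.of_apply, smul_eq_mul, mul_one]
    by_cases hxy : x = y
    · subst hxy
      have : ∀ z, D0 x z * D0 z x = D0 x z := by
        intro z
        simp only [D0, Matrix.of_apply, dotProduct_comm z.rep]
        split_ifs <;> simp
      simp only [this, row, if_true, mul_one, gs_succ]
      push_cast; ring
    · have h := card_orth (ι := Fin 2) (Matrix.of ![x.rep, y.rep])
        (Projectivization.linearIndependent_pair_iff_ne.2 hxy)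
      simp only [Fin.forall_fin_two, Fintype.card_fin, Nat.add_sub_cancel] at h
      rw [Nat.card_eq_fintype_card, Fintype.card_subtype] at h
      have : ∀ z, D0 x z * D0 z y =
          if x.rep ⬝ᵥ z.rep = 0 ∧ y.rep ⬝ᵥ z.rep = 0 then 1 else 0 := by
        intro z
        simp only [D0, Matrix.of_apply, dotProduct_comm z.rep]
        by_cases h1 : x.rep ⬝ᵥ z.rep = 0 <;> by_cases h2 : y.rep ⬝ᵥ z.rep = 0 <;> simp [h1, h2]
      simp only [this, Finset.sum_boole, if_neg hxy, mul_zero, zero_add]
      rw [← h]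
      rfl
  refine ⟨D0.submatrix e e, fun x y => ?_, ?_, fun x => ?_, ?_,
    fun r hr => (univ_proj R hr).submatrix e⟩
  · simp only [D0, Matrix.submatrix_apply, Matrix.of_apply]
    split_ifs <;> simp
  · rw [Matrix.transpose_submatrix, sy]
  · simp only [Matrix.submatrix_apply]
    rw [Equiv.sum_comp e (fun y => D0 (e x) y), row]
  · rw [Matrix.submatrix_mul_equiv, sq]
    ext x y
    simp only [Matrix.submatrix_apply, Matrix.add_apply, Matrix.smul_apply, Matrix.one_apply,
      e.injective.eq_iff, Jm, Matrix.of_apply]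

lemma exists_design (R : Type) [CommRing R] (F : Type) [Field F] [Fintype F] (b : ℕ) :
    ∃ D : Matrix (Fin (gs (Fintype.card F) (b + 2))) (Fin (gs (Fintype.card F) (b + 2))) R,
      (∀ x y, D x y = 0 ∨ D x y = 1) ∧ Dᵀ = D ∧
      (∀ x, ∑ y, D x y = (gs (Fintype.card F) (b + 1) : R)) ∧
      D * D = ((Fintype.card F : R) ^ b) • 1 + (gs (Fintype.card F) b : R) • Jm R _ := by
  obtain ⟨D, h1, h2, h3, h4, _⟩ := exists_design_univ R F b
  exact ⟨D, h1, h2, h3, h4⟩

end

variable {R : Type} [CommRing R]

lemma mul_J {V : Type} [Fintype V] {D : Matrix V V R} {k : R} (sy : Dᵀ = D)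
    (row : ∀ x, ∑ y, D x y = k) : D * Jm R V = k • Jm R V ∧ Jm R V * D = k • Jm R V := by
  have h1 : D * Jm R V = k • Jm R V := by
    ext x y; simp [Matrix.mul_apply, Jm, row]
  refine ⟨h1, ?_⟩
  have := congrArg Matrix.transpose h1
  rw [Matrix.transpose_mul, sy, Matrix.transpose_smul] at this
  exact this

/-- the complement of the design is a single balanced block when the field order is idempotent -/
lemma hasBal_compl (F : Type) [Field F] [Fintype F]
    (hq : (Fintype.card F : R) * (Fintype.card F : R) = (Fintype.card F : R)) (b : ℕ) :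
    HasBal (fun _ : Unit => (Fintype.card F : R)) (gs (Fintype.card F) (b + 1 + 2)) := by
  obtain ⟨D, bin, sy, row, sq⟩ := exists_design R F (b + 1)
  have hpow : ∀ n, (Fintype.card F : R) ^ (n + 1) = Fintype.card F := by
    intro n
    induction n with
    | zero => simp
    | succ n ih => rw [pow_succ, ih, hq]
  obtain ⟨m1, m2⟩ := mul_J sy row
  refine ⟨fun _ => Jm R _ - D, ⟨fun _ x y => ?_, fun _ => ?_, fun _ _ => rfl, fun _ x => ?_, ?_⟩⟩
  · simp only [Matrix.sub_apply, Jm, Matrix.of_apply]
    rcases bin x y with h | h <;> simp [h]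
  · rw [Matrix.transpose_sub, sy]; rfl
  · simp only [Matrix.sub_apply, Jm, Matrix.of_apply, Finset.sum_sub_distrib, row,
      Finset.sum_const, Finset.card_univ, Fintype.card_fin, nsmul_eq_mul, mul_one]
    rw [show b + 1 + 2 = b + 1 + 1 + 1 from rfl, gs_succ _ (b + 1 + 1)]
    push_cast
    rw [hpow]; ring
  · simp only [Finset.univ_unique, Finset.sum_singleton, Matrix.sub_mul, Matrix.mul_sub, m1, m2,
      sq, J_mul_J, Fintype.card_fin]
    have e1 : (gs (Fintype.card F) (b + 1 + 2) : R) =
        gs (Fintype.card F) (b + 1) + 2 * (Fintype.card F : R) := by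
      rw [show b + 1 + 2 = b + 1 + 1 + 1 from rfl, gs_succ _ (b + 1 + 1), gs_succ _ (b + 1)]
      push_cast
      rw [hpow, hpow]; ring
    have e2 : (gs (Fintype.card F) (b + 1 + 1) : R) =
        gs (Fintype.card F) (b + 1) + (Fintype.card F : R) := by
      rw [gs_succ _ (b + 1)]
      push_cast
      rw [hpow]
    rw [hpow, e2]
    conv_lhs => congr; congr; rw [e1]
    module

lemma cof_card (F : Type) [Field F] [Fintype F]
    (hq : (Fintype.card F : R) * (Fintype.card F : R) = (Fintype.card F : R)) :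
    Cof (fun _ : Unit => (Fintype.card F : R)) := by
  refine cof_of_coprime (hasBal_compl F hq 0) (hasBal_compl F hq 1) ?_
  have : gs (Fintype.card F) (1 + 1 + 2) = 1 + Fintype.card F * gs (Fintype.card F) (0 + 1 + 2) := by
    rw [show 1 + 1 + 2 = 1 + (0 + 1 + 2) from rfl, gs_add]
    simp [gs]
  rw [this]
  simp

/-- the design together with the all-ones matrix -/
lemma hasBal_pair_univ (F : Type) [Field F] [Fintype F] (b : ℕ)
    (h : (gs (Fintype.card F) b : R) + gs (Fintype.card F) (b + 2) = 0) :
    ∃ N : Fin 2 → Matrix (Fin (gs (Fintype.card F) (b + 2))) (Fin (gs (Fintype.card F) (b + 2))) R,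
      Bal ![(gs (Fintype.card F) (b + 1) : R), gs (Fintype.card F) (b + 2)] N ∧
      ∀ r, r + r ≤ b + 2 → Univ r (N 0) := by
  obtain ⟨D, bin, sy, row, sq, un⟩ := exists_design_univ R F b
  obtain ⟨m1, m2⟩ := mul_J sy row
  refine ⟨![D, Jm R _], ⟨fun i x y => ?_, fun i => ?_, fun i j => ?_, fun i x => ?_, ?_⟩, un⟩
  · fin_cases i
    · exact bin x y
    · right; rfl
  · fin_cases i
    · exact sy
    · rfl
  · fin_cases i <;> fin_cases j <;> simp [m1, m2]
  · fin_cases i
    · exact row x
    · simp [Jm]
  · simp only [Fin.sum_univ_two, Matrix.cons_val_zero, Matrix.cons_val_one, sq, J_mul_J,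
      Fintype.card_fin]
    have e2 : (gs (Fintype.card F) (b + 1) : R) =
        gs (Fintype.card F) b + (Fintype.card F : R) ^ b := by
      rw [gs_succ]; push_cast; rfl
    have e1 : (gs (Fintype.card F) (b + 2) : R) = -gs (Fintype.card F) b := by
      linear_combination h
    rw [e2]
    conv_lhs => congr; rfl; congr; rw [e1]
    conv_rhs => congr; rw [e1]
    module

lemma hasBal_pair (F : Type) [Field F] [Fintype F] (b : ℕ)
    (h : (gs (Fintype.card F) b : R) + gs (Fintype.card F) (b + 2) = 0) :
    HasBal ![(gs (Fintype.card F) (b + 1) : R), gs (Fintype.card F) (b + 2)]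
      (gs (Fintype.card F) (b + 2)) := by
  obtain ⟨N, h1, _⟩ := hasBal_pair_univ F b h
  exact ⟨N, h1⟩

end Pool.Agent.MP_d8b1b3_co.ModA
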