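import Mathlib
import Pool.Agent.MP_d8b1b3_co.ModA.Proj

/-!
Choice of the field and of the dimension.
-/

set_option autoImplicit false

namespace Pool.Agent.MP_d8b1b3_co.ModA

lemma emult_gs {q p : ℕ} (hq : 1 < q) (hp : p.Prime) (h4 : 4 ∣ q - 1) (hpq : p ∣ q - 1) (n : ℕ) :
    emultiplicity (p : ℤ) (gs q n : ℤ) = emultiplicity (p : ℤ) (n : ℤ) := by
  have hc : ((q - 1 : ℕ) : ℤ) = (q : ℤ) - 1 := by push_cast [Nat.cast_sub hq.le]; rfl
  have hpq' : (p : ℤ) ∣ (q : ℤ) - 1 := by rw [← hc]; exact_mod_cast hpq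
  have hnd : ¬ (p : ℤ) ∣ (q : ℤ) := by
    intro h
    have h1 : (p : ℤ) ∣ 1 := by simpa using dvd_sub h hpq'
    have : p ∣ 1 := by exact_mod_cast h1
    exact hp.one_lt.ne' (Nat.dvd_one.1 this)
  have key : emultiplicity (p : ℤ) ((q : ℤ) ^ n - 1 ^ n) =
      emultiplicity (p : ℤ) ((q : ℤ) - 1) + emultiplicity (p : ℤ) (n : ℤ) := by
    rcases hp.eq_two_or_odd' with rfl | hodd
    · exact Int.two_pow_sub_pow' n (by rw [← hc]; exact_mod_cast h4) hnd
    · rw [Int.emultiplicity_pow_sub_pow hp hodd hpq' hnd n, Int.natCast_emultiplicity]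
  rw [one_pow, ← gs_mul, emultiplicity_mul (Nat.prime_iff_prime_int.1 hp)] at key
  have hfin : emultiplicity (p : ℤ) ((q : ℤ) - 1) ≠ ⊤ := by
    rw [← finiteMultiplicity_iff_emultiplicity_ne_top, Int.finiteMultiplicity_iff]
    refine ⟨by simpa using hp.ne_one, by omega⟩
  exact WithTop.add_left_cancel hfin key

lemma dvd_gs_iff {q M : ℕ} (hq : 1 < q) (h4 : 4 ∣ q - 1)
    (hp : ∀ p, p.Prime → p ∣ M → p ∣ q - 1) (n : ℕ) : M ∣ gs q n ↔ M ∣ n := by
  rw [Nat.dvd_iff_prime_pow_dvd_dvd, Nat.dvd_iff_prime_pow_dvd_dvd n M]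
  refine forall_congr' fun p => forall_congr' fun k => forall_congr' fun hpp =>
    forall_congr' fun hk => ?_
  rcases k with _ | k
  · simp
  have h := emult_gs hq hpp h4 (hp p hpp (dvd_trans (dvd_pow_self p (by omega)) hk)) n
  rw [Int.natCast_emultiplicity, Int.natCast_emultiplicity] at h
  rw [pow_dvd_iff_le_emultiplicity, pow_dvd_iff_le_emultiplicity, h]

lemma coprime_one_add {M w : ℕ} (hp : ∀ p, p.Prime → p ∣ M → p ∣ w) (x : ℕ) :
    Nat.Coprime (1 + w * x) M := by
  refine Nat.coprime_of_dvd fun p hpp h1 h2 => ?_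
  have h3 : p ∣ w * x := dvd_mul_of_dvd_left (hp p hpp h2) x
  exact hpp.one_lt.ne' (Nat.dvd_one.1 ((Nat.dvd_add_left h3).1 h1))

lemma isUnit_one_add {M w : ℕ} [NeZero M] (hp : ∀ p, p.Prime → p ∣ M → p ∣ w) (x : ZMod M) :
    IsUnit (1 + (w : ZMod M) * x) := by
  have := (ZMod.isUnit_iff_coprime (1 + w * x.val) M).2 (coprime_one_add hp x.val)
  simpa using this

lemma gs_surj {q M : ℕ} [NeZero M] (hq : 1 < q) (h4 : 4 ∣ q - 1)
    (hp : ∀ p, p.Prime → p ∣ M → p ∣ q - 1) (u : ZMod M) : ∃ b : ℕ, (gs q b : ZMod M) = u := by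
  have hu : IsUnit (q : ZMod M) := by
    have := isUnit_one_add hp 1
    rw [mul_one, Nat.cast_sub hq.le] at this
    simpa using this
  have aux : ∀ a b : ℕ, a ≤ b → b < M → (gs q a : ZMod M) = gs q b → a = b := by
    intro a b hab hb h
    obtain ⟨d, rfl⟩ := Nat.exists_eq_add_of_le hab
    rw [gs_add] at h
    push_cast at h
    have h1 : (q : ZMod M) ^ a * gs q d = 0 := by linear_combination -h
    rw [(hu.pow a).mul_right_eq_zero, ZMod.natCast_eq_zero_iff, dvd_gs_iff hq h4 hp] at h1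
    have : d = 0 := Nat.eq_zero_of_dvd_of_lt h1 (by omega)
    omega
  have inj : Function.Injective (fun x : ZMod M => (gs q x.val : ZMod M)) := by
    intro x y h
    apply ZMod.val_injective M
    rcases le_total x.val y.val with hxy | hxy
    · exact aux _ _ hxy (ZMod.val_lt y) h
    · exact (aux _ _ hxy (ZMod.val_lt x) h.symm).symm
  obtain ⟨x, hx⟩ := (Finite.injective_iff_surjective.1 inj) u
  exact ⟨x.val, hx⟩

lemma coprime_gs {q a c : ℕ} (hq : 1 < q) (h : Nat.Coprime a c) :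
    Nat.Coprime (gs q a) (gs q c) := by
  have e : ∀ n, (q - 1) * gs q n = q ^ n - 1 := by
    intro n
    have h1 : 1 ≤ q ^ n := Nat.one_le_pow _ _ (by omega)
    zify [hq.le, h1]
    exact gs_mul q n
  have h2 := Nat.pow_sub_one_gcd_pow_sub_one q a c
  rw [h, pow_one, ← e a, ← e c, Nat.gcd_mul_left] at h2
  have h3 : 0 < q - 1 := by omega
  exact Nat.eq_of_mul_eq_mul_left h3 (by rw [h2, mul_one])

/-- balanced pairs of every weight that is `1` modulo `4` and modulo every prime factor of the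
modulus -/
lemma cof_pair_univ {M : ℕ} [NeZero M] (w : ℕ) (hw : 0 < w) (h2 : 2 ∣ w)
    (hp : ∀ p, p.Prime → p ∣ M → p ∣ w) :
    ∃ k : Fin 2 → ZMod M, ∑ i, k i = 1 + 2 * (w : ZMod M) ∧ Cof k ∧
      ∀ r, ∃ (u : ℕ) (N : Fin 2 → Matrix (Fin u) (Fin u) (ZMod M)), Bal k N ∧ Univ r (N 0) := by
  have hM : M ≠ 0 := NeZero.ne M
  obtain ⟨Pi, hPi⟩ : ∃ Pi : ZMod M, (1 + (w : ZMod M) * 2) * Pi = 1 :=
    (isUnit_one_add hp 2).exists_right_inv
  have inj : Function.Injective (fun s : ZMod M => s + w * s ^ 2) := by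
    intro s t h
    have h1 : (1 + (w : ZMod M) * (s + t)) * (s - t) = 0 := by
      simp only at h
      linear_combination h
    rw [(isUnit_one_add hp (s + t)).mul_right_eq_zero] at h1
    exact sub_eq_zero.1 h1
  obtain ⟨s0, hs0⟩ := (Finite.injective_iff_surjective.1 inj) (-Pi)
  simp only at hs0
  have hcop : Nat.Coprime (1 + (2 * w) * s0.val) (2 * w * M) := by
    refine coprime_one_add (fun p hpp h => ?_) _
    rcases (Nat.Prime.dvd_mul hpp).1 h with h | h
    · exact h
    · exact dvd_mul_of_dvd_right (hp p hpp h) 2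
  obtain ⟨q, hgt, hqp, hmod⟩ := Nat.forall_exists_prime_gt_and_modEq (1 + (2 * w) * s0.val)
    (q := 2 * w * M) (by positivity) hcop
  obtain ⟨t, ht⟩ := (Nat.modEq_iff_dvd' hgt.le).1 hmod.symm
  have hq : q = 1 + 2 * w * (s0.val + M * t) := by
    have : q = 1 + 2 * w * s0.val + 2 * w * M * t := by omega
    rw [this]; ring
  have hq1 : 1 < q := hqp.one_lt
  have hq' : q - 1 = 2 * w * (s0.val + M * t) := by omega
  have h4 : 4 ∣ q - 1 := by
    rw [hq']
    obtain ⟨w', rfl⟩ := h2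
    exact ⟨w' * (s0.val + M * t), by ring⟩
  have hpq : ∀ p, p.Prime → p ∣ M → p ∣ q - 1 := by
    intro p hpp h
    rw [hq']
    exact dvd_mul_of_dvd_left (dvd_mul_of_dvd_right (hp p hpp h) 2) _
  have hqc : (q : ZMod M) = 1 + 2 * w * s0 := by
    rw [hq]; push_cast; simp
  obtain ⟨b, hb⟩ := gs_surj hq1 h4 hpq (-(1 + (w : ZMod M) * s0) * (1 + (w : ZMod M) * 2))
  have hM0 : (gs q M : ZMod M) = 0 := by
    rw [ZMod.natCast_eq_zero_iff, dvd_gs_iff hq1 h4 hpq]
  have per : ∀ n, (gs q (n + M) : ZMod M) = gs q n := by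
    intro n; rw [gs_add]; push_cast; rw [hM0]; ring
  have hpow : (q : ZMod M) ^ b = 1 + ((q : ZMod M) - 1) * gs q b := by
    have := congrArg (Int.cast : ℤ → ZMod M) (gs_mul q b)
    push_cast at this
    linear_combination -this
  have hh : (1 + 2 * (w : ZMod M) * (s0 + w * s0 ^ 2)) * (1 + (w : ZMod M) * 2) = 1 := by
    rw [hs0]; linear_combination (-2 * (w : ZMod M)) * hPi
  have hv : (gs q (b + 2) : ZMod M) = (1 + (w : ZMod M) * s0) * (1 + (w : ZMod M) * 2) := by
    rw [gs_succ, gs_succ]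
    push_cast
    rw [pow_succ, hpow, hb, hqc]
    linear_combination (-2 * (1 + (w : ZMod M) * s0)) * hh
  have hbal : (gs q b : ZMod M) + gs q (b + 2) = 0 := by rw [hb, hv]; ring
  have : Fact q.Prime := ⟨hqp⟩
  have hcard : Fintype.card (ZMod q) = q := ZMod.card q
  have b1 := hasBal_pair (R := ZMod M) (ZMod q) b (by rw [hcard]; exact hbal)
  have b2 := hasBal_pair (R := ZMod M) (ZMod q) (b + M) (by
    rw [hcard, per, show b + M + 2 = b + 2 + M by ring, per]; exact hbal)
  rw [hcard] at b1 b2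
  have e1 : (gs q (b + M + 1) : ZMod M) = gs q (b + 1) := by
    rw [show b + M + 1 = b + 1 + M by ring, per]
  have e2 : (gs q (b + M + 2) : ZMod M) = gs q (b + 2) := by
    rw [show b + M + 2 = b + 2 + M by ring, per]
  rw [e1, e2] at b2
  have hcv : Nat.Coprime (gs q (b + 2)) M := by
    rw [← ZMod.isUnit_iff_coprime, hv]
    exact (isUnit_one_add hp s0).mul (isUnit_one_add hp 2)
  have hca : Nat.Coprime (b + 2) M := by
    refine Nat.coprime_of_dvd fun p hpp h1 h2 => ?_
    have h3 : p ∣ gs q (b + 2) :=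
      (dvd_gs_iff hq1 h4 (fun p' hp' h => hpq p' hp' (dvd_trans h h2)) _).2 h1
    exact hpp.one_lt.ne' (Nat.eq_one_of_dvd_coprimes hcv h3 h2)
  have pert : ∀ n t, (gs q (n + M * t) : ZMod M) = gs q n := by
    intro n t
    induction t with
    | zero => simp
    | succ t ih => rw [show n + M * (t + 1) = n + M * t + M by ring, per, ih]
  refine ⟨_, ?_, cof_of_coprime b1 b2 (coprime_gs hq1 ?_), fun r => ?_⟩
  · simp only [Fin.sum_univ_two, Matrix.cons_val_zero, Matrix.cons_val_one]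
    rw [hv, gs_succ]
    push_cast
    rw [hpow, hb, hqc]
    linear_combination (-1 : ZMod M) * hh
  · rw [show b + M + 2 = M + (b + 2) by ring]
    simpa using hca
  · obtain ⟨N, hN, hU⟩ := hasBal_pair_univ (R := ZMod M) (ZMod q) (b + M * (r + r)) (by
      rw [hcard, pert, show b + M * (r + r) + 2 = b + 2 + M * (r + r) by ring, pert]; exact hbal)
    have e3 : (gs (Fintype.card (ZMod q)) (b + M * (r + r) + 1) : ZMod M) = gs q (b + 1) := by
      rw [hcard, show b + M * (r + r) + 1 = b + 1 + M * (r + r) by ring, pert]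
    have e4 : (gs (Fintype.card (ZMod q)) (b + M * (r + r) + 2) : ZMod M) = gs q (b + 2) := by
      rw [hcard, show b + M * (r + r) + 2 = b + 2 + M * (r + r) by ring, pert]
    rw [e3, e4] at hN
    refine ⟨_, N, hN, hU r ?_⟩
    have : r + r ≤ M * (r + r) := Nat.le_mul_of_pos_left _ (Nat.pos_of_ne_zero hM)
    omega

lemma cof_pair {M : ℕ} [NeZero M] (w : ℕ) (hw : 0 < w) (h2 : 2 ∣ w)
    (hp : ∀ p, p.Prime → p ∣ M → p ∣ w) :
    ∃ k : Fin 2 → ZMod M, ∑ i, k i = 1 + 2 * (w : ZMod M) ∧ Cof k := by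
  obtain ⟨k, h1, h3, _⟩ := cof_pair_univ w hw h2 hp
  exact ⟨k, h1, h3⟩

/-- single balanced blocks whose weight is an idempotent with prescribed prime support -/
lemma cof_idem {M : ℕ} [NeZero M] (S : Finset ℕ) (hS : ∀ p ∈ S, p.Prime) :
    ∃ e : ℕ, Cof (fun _ : Unit => (e : ZMod M)) ∧ (e : ZMod M) * e = e ∧
      ∀ p, p.Prime → (p ∣ e ↔ p ∈ S) := by
  classical
  induction S using Finset.induction_on with
  | empty =>
    exact ⟨1, by simpa using cof_one, by simp, fun p hp => by simpa using hp.ne_one⟩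
  | insert p S _ ih =>
    obtain ⟨e, h1, h2, h3⟩ := ih fun p hp => hS p (Finset.mem_insert_of_mem hp)
    have hp : p.Prime := hS p (Finset.mem_insert_self _ _)
    have : Fact p.Prime := ⟨hp⟩
    obtain ⟨f, hf, hid⟩ : ∃ f : ℕ, f ≠ 0 ∧ (p : ZMod M) ^ f * (p : ZMod M) ^ f = (p : ZMod M) ^ f := by
      obtain ⟨i, j, hij, hpow⟩ := Finite.exists_ne_map_eq_of_infinite
        (fun n : ℕ => (p : ZMod M) ^ n)
      wlog hlt : i < j generalizing i j
      · exact this j i hij.symm hpow.symm (by omega)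
      obtain ⟨d, rfl⟩ := Nat.exists_eq_add_of_lt hlt
      have step : ∀ t, (p : ZMod M) ^ (i + (d + 1) * t) = (p : ZMod M) ^ i := by
        intro t
        induction t with
        | zero => simp
        | succ t iht =>
          have hpow' : (p : ZMod M) ^ i = (p : ZMod M) ^ (i + d + 1) := hpow
          calc (p : ZMod M) ^ (i + (d + 1) * (t + 1))
              = (p : ZMod M) ^ (i + d + 1) * (p : ZMod M) ^ ((d + 1) * t) := by
                rw [← pow_add]; congr 1; ring
            _ = (p : ZMod M) ^ (i + (d + 1) * t) := by rw [← hpow', ← pow_add]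
            _ = _ := iht
      refine ⟨(d + 1) * (i + 1), by positivity, ?_⟩
      have e1 : (d + 1) * (i + 1) = i + (d * (i + 1) + 1) := by ring
      calc (p : ZMod M) ^ ((d + 1) * (i + 1)) * (p : ZMod M) ^ ((d + 1) * (i + 1))
          = (p : ZMod M) ^ (i + (d + 1) * (i + 1)) * (p : ZMod M) ^ (d * (i + 1) + 1) := by
            rw [← pow_add, ← pow_add]; congr 1; ring
        _ = _ := by rw [step, ← pow_add, ← e1]
    let _ : Fintype (GaloisField p f) := Fintype.ofFinite _
    have hcard : Fintype.card (GaloisField p f) = p ^ f := by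
      rw [← Nat.card_eq_fintype_card, GaloisField.card p f hf]
    have hc := cof_card (R := ZMod M) (GaloisField p f) (by rw [hcard]; push_cast; exact hid)
    rw [hcard] at hc
    refine ⟨p ^ f * e, ?_, ?_, fun r hr => ?_⟩
    · have := hc.mul h1
      simpa using this
    · push_cast
      linear_combination ((e : ZMod M) * e) * hid + (p : ZMod M) ^ f * h2
    · rw [hr.dvd_mul, h3 r hr, Finset.mem_insert, hr.prime.dvd_pow_iff_dvd hf,
        Nat.prime_dvd_prime_iff_eq hr hp]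

end Pool.Agent.MP_d8b1b3_co.ModA
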