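import Mathlib

/-!
The quartic conference matrix for a prime `q` that is `5` modulo `8`: it is complex
skew-symmetric.
-/

set_option autoImplicit false

namespace Pool.Agent.MP_d8b1b3_co.ModA

open Matrix

/-- the four units of the Gaussian integers -/
def Unit4 (z : GaussianInt) : Prop := z = ⟨1, 0⟩ ∨ z = ⟨0, 1⟩ ∨ z = ⟨-1, 0⟩ ∨ z = ⟨0, -1⟩

lemma unit4_pow (k : ℕ) : Unit4 ((⟨0, 1⟩ : GaussianInt) ^ k) := by
  induction k with
  | zero => left; rfl
  | succ k ih =>
    rw [pow_succ]
    rcases ih with h | h | h | h <;> rw [h]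
    · right; left; decide
    · right; right; left; decide
    · right; right; right; decide
    · left; decide

lemma Unit4.mul_star {z : GaussianInt} (h : Unit4 z) : z * star z = 1 := by
  rcases h with h | h | h | h <;> rw [h] <;> decide

lemma exists_char (q : ℕ) [Fact q.Prime] (hq : q % 8 = 5) :
    ∃ χ : MulChar (ZMod q) GaussianInt, χ (-1) = -1 ∧ ∀ a, a ≠ 0 → Unit4 (χ a) := by
  classical
  obtain ⟨g, hg⟩ := IsCyclic.exists_generator (α := (ZMod q)ˣ)
  have hcard : Fintype.card (ZMod q)ˣ = q - 1 := ZMod.card_units q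
  have hi4 : (⟨0, 1⟩ : GaussianInt) ^ 4 = 1 := by decide
  let ζ : GaussianIntˣ := ⟨⟨0, 1⟩, ⟨0, -1⟩, by decide, by decide⟩
  obtain ⟨k, hk⟩ : ∃ k, q = 8 * k + 5 := ⟨q / 8, by omega⟩
  have hζ : ζ ∈ rootsOfUnity (Fintype.card (ZMod q)ˣ) GaussianInt := by
    rw [mem_rootsOfUnity, hcard, show q - 1 = 4 * (2 * k + 1) by omega, pow_mul]
    have : ζ ^ 4 = 1 := Units.ext hi4
    rw [this, one_pow]
  let χ := MulChar.ofRootOfUnity hζ hg
  have hχ : χ g = ⟨0, 1⟩ := MulChar.ofRootOfUnity_spec hζ hg
  have hpow : ∀ n : ℕ, χ ((g ^ n : (ZMod q)ˣ) : ZMod q) = (⟨0, 1⟩ : GaussianInt) ^ n := by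
    intro n
    rw [Units.val_pow_eq_pow_val, map_pow, hχ]
  refine ⟨χ, ?_, fun a ha => ?_⟩
  · have hord : orderOf g = q - 1 := by
      rw [orderOf_eq_card_of_forall_mem_zpowers hg, Nat.card_eq_fintype_card, hcard]
    have h1 : (g ^ (4 * k + 2)) ^ 2 = 1 := by
      rw [← pow_mul, show (4 * k + 2) * 2 = q - 1 by omega, ← hord, pow_orderOf_eq_one]
    have h2 : g ^ (4 * k + 2) ≠ 1 := pow_ne_one_of_lt_orderOf (by omega) (by omega)
    have h3 : ((g ^ (4 * k + 2) : (ZMod q)ˣ) : ZMod q) = -1 := by
      have h4 : ((g ^ (4 * k + 2) : (ZMod q)ˣ) : ZMod q) ^ 2 = 1 := by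
        rw [← Units.val_pow_eq_pow_val, h1, Units.val_one]
      rcases sq_eq_one_iff.1 h4 with h | h
      · exact absurd (Units.ext h) h2
      · exact h
    rw [← h3, hpow, pow_add, pow_mul, hi4, one_pow, one_mul]
    decide
  · obtain ⟨n, hn⟩ := (mem_powers_iff_mem_zpowers.2 (hg (Units.mk0 a ha)))
    have : a = ((g ^ n : (ZMod q)ˣ) : ZMod q) := by
      simp only at hn
      rw [hn]; rfl
    rw [this, hpow]
    exact unit4_pow n

lemma exists_conf (q : ℕ) [Fact q.Prime] (hq : q % 8 = 5) :
    ∃ Z : Matrix (Option (ZMod q)) (Option (ZMod q)) GaussianInt,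
      (∀ x y, Z y x = -Z x y) ∧ (∀ x y, x ≠ y → Unit4 (Z x y)) ∧ (∀ x, Z x x = 0) ∧
      Z none (some 0) = 1 ∧
      ∀ x y, ∑ z, Z x z * star (Z y z) = if x = y then (q : GaussianInt) else 0 := by
  classical
  obtain ⟨χ, hneg, hu⟩ := exists_char q hq
  have hne : χ ≠ 1 := by
    intro h
    rw [h, MulChar.one_apply (isUnit_one.neg)] at hneg
    exact absurd hneg (by decide)
  have hsum : ∑ a, χ a = 0 := MulChar.sum_eq_zero_of_ne_one hne
  have hsum' : ∀ x : ZMod q, ∑ z, χ (x - z) = 0 := by
    intro x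
    rw [← hsum]
    exact Equiv.sum_comp (Equiv.subLeft x) (fun a => χ a)
  have hstar : ∀ a, star (χ a) = χ a⁻¹ := by
    intro a
    by_cases ha : a = 0
    · simp [ha, χ.map_zero]
    · have h1 := (hu a ha).mul_star
      have h2 : χ a * χ a⁻¹ = 1 := by rw [← map_mul, mul_inv_cancel₀ ha, map_one]
      calc star (χ a) = star (χ a) * (χ a * χ a⁻¹) := by rw [h2, mul_one]
        _ = (χ a * star (χ a)) * χ a⁻¹ := by ring
        _ = _ := by rw [h1, one_mul]
  have hcore : ∀ x y : ZMod q, ∑ z, χ (x - z) * star (χ (y - z)) =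
      (if x = y then (q : GaussianInt) else 0) - 1 := by
    intro x y
    split_ifs with hxy
    · subst hxy
      have : ∀ z, χ (x - z) * star (χ (x - z)) = 1 - if z = x then 1 else 0 := by
        intro z
        split_ifs with hz
        · simp [hz, χ.map_zero]
        · rw [(hu _ (sub_ne_zero.2 (Ne.symm hz))).mul_star, sub_zero]
      simp only [this, Finset.sum_sub_distrib, Finset.sum_const, Finset.card_univ, ZMod.card,
        nsmul_eq_mul, mul_one, Finset.sum_ite_eq', Finset.mem_univ, if_true]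
    · have hd : x - y ≠ 0 := sub_ne_zero.2 hxy
      have e1 : ∀ z, χ (x - z) * star (χ (y - z)) =
          χ (1 + (x - y) * (y - z)⁻¹) - if z = y then 1 else 0 := by
        intro z
        rw [hstar, ← map_mul]
        split_ifs with hz
        · simp [hz, χ.map_zero]
        · have : y - z ≠ 0 := sub_ne_zero.2 (Ne.symm hz)
          rw [sub_zero]
          congr 1
          field_simp
          ring
      simp only [e1, Finset.sum_sub_distrib, Finset.sum_ite_eq', Finset.mem_univ, if_true]
      congr 1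
      rw [← hsum]
      exact Equiv.sum_comp ((Equiv.subLeft y).trans ((Equiv.inv (ZMod q)).trans
        ((Equiv.mulLeft₀ (x - y) hd).trans (Equiv.addLeft 1)))) (fun a => χ a)
  let Z : Matrix (Option (ZMod q)) (Option (ZMod q)) GaussianInt := fun x y =>
    match x, y with
    | none, none => 0
    | none, some _ => 1
    | some _, none => -1
    | some x, some y => χ (x - y)
  refine ⟨Z, ?_, ?_, ?_, rfl, ?_⟩
  · rintro (_ | x) (_ | y)
    · simp [Z]
    · simp [Z]
    · simp [Z]
    · show χ (y - x) = -χ (x - y)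
      rw [show y - x = -1 * (x - y) by ring, map_mul, hneg]
      ring
  · rintro (_ | x) (_ | y) h
    · exact absurd rfl h
    · left; rfl
    · right; right; left; rfl
    · exact hu _ (sub_ne_zero.2 fun h' => h (congrArg some h'))
  · rintro (_ | x)
    · rfl
    · show χ (x - x) = 0
      simp [χ.map_zero]
  · rintro (_ | x) (_ | y)
    · simp [Z, Fintype.sum_option]
    · simp only [Z, Fintype.sum_option, zero_mul, zero_add, one_mul]
      rw [← star_sum, hsum']
      simp
    · simp only [Z, Fintype.sum_option, star_zero, mul_zero, zero_add, star_one, mul_one]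
      rw [hsum']
      simp
    · simp only [Z, Fintype.sum_option, hcore, Option.some.injEq]
      simp

lemma exists_quartic (q : ℕ) [Fact q.Prime] (hq : q % 8 = 5) :
    ∃ A B : Matrix (Option (ZMod q)) (Option (ZMod q)) ℤ,
      Aᵀ = -A ∧ Bᵀ = -B ∧ A * B = B * A ∧ A * A + B * B = -((q : ℤ) • 1) ∧
      (∀ x y, x ≠ y → ((A x y = 1 ∨ A x y = -1) ∧ B x y = 0) ∨
        (A x y = 0 ∧ (B x y = 1 ∨ B x y = -1))) ∧
      (∀ x, A x x = 0 ∧ B x x = 0) ∧ A none (some 0) = 1 ∧ B none (some 0) = 0 := by
  classical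
  obtain ⟨Z, sk, un, dg, h0, gram⟩ := exists_conf q hq
  have hre : ∀ (s : Finset (Option (ZMod q))) (f : Option (ZMod q) → GaussianInt),
      (∑ z ∈ s, f z).re = ∑ z ∈ s, (f z).re := by
    intro s f
    induction s using Finset.induction_on with
    | empty => rfl
    | insert a s ha ih => rw [Finset.sum_insert ha, Finset.sum_insert ha, Zsqrtd.re_add, ih]
  have him : ∀ (s : Finset (Option (ZMod q))) (f : Option (ZMod q) → GaussianInt),
      (∑ z ∈ s, f z).im = ∑ z ∈ s, (f z).im := by
    intro s f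
    induction s using Finset.induction_on with
    | empty => rfl
    | insert a s ha ih => rw [Finset.sum_insert ha, Finset.sum_insert ha, Zsqrtd.im_add, ih]
  refine ⟨Matrix.of fun x y => (Z x y).re, Matrix.of fun x y => (Z x y).im, ?_, ?_, ?_, ?_, ?_,
    ?_, ?_, ?_⟩
  · ext x y; simp [sk x y]
  · ext x y; simp [sk x y]
  · ext x y
    have h := congrArg Zsqrtd.im (gram x y)
    rw [him] at h
    have h' : (if x = y then (q : GaussianInt) else 0).im = 0 := by split_ifs <;> simp
    rw [h'] at h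
    simp only [Matrix.mul_apply, Matrix.of_apply]
    rw [← sub_eq_zero, ← Finset.sum_sub_distrib, ← h]
    refine Finset.sum_congr rfl fun z _ => ?_
    rw [sk y z]
    simp
  · ext x y
    have h := congrArg Zsqrtd.re (gram x y)
    rw [hre] at h
    have h' : (if x = y then (q : GaussianInt) else 0).re = if x = y then (q : ℤ) else 0 := by
      split_ifs <;> simp
    rw [h'] at h
    simp only [Matrix.add_apply, Matrix.mul_apply, Matrix.of_apply, Matrix.neg_apply,
      Matrix.smul_apply, Matrix.one_apply, smul_eq_mul, mul_ite, mul_one, mul_zero]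
    rw [← h, ← Finset.sum_add_distrib, ← Finset.sum_neg_distrib]
    refine Finset.sum_congr rfl fun z _ => ?_
    rw [sk y z]
    simp
    ring
  · intro x y h
    simp only [Matrix.of_apply]
    rcases un x y h with h | h | h | h <;> simp [h]
  · intro x
    simp [dg]
  · simp [h0]
  · simp [h0]

end Pool.Agent.MP_d8b1b3_co.ModA
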