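import Mathlib
import Pool.Agent.MP_d8b1b3_co.ModA.Proj
import Pool.Agent.MP_d8b1b3_co.ModA.Quartic

/-!
Two commuting balanced pairs placed in the quartic orthogonal design, and the blow-up lemma.
-/

set_option autoImplicit false

namespace Pool.Agent.MP_d8b1b3_co.ModA

open Matrix
open scoped Kronecker

variable {R : Type} [CommRing R]

/-- two balanced families on the same set that commute with each other -/
structure Two {ι κ V : Type} [Fintype ι] [Fintype κ] [Fintype V] [DecidableEq V] (k : ι → R)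
    (k' : κ → R) (N : ι → Matrix V V R) (N' : κ → Matrix V V R) : Prop where
  left : Bal k N
  right : Bal k' N'
  comm : ∀ i j, N i * N' j = N' j * N i

section

variable {ι κ : Type} [Fintype ι] [Fintype κ]

lemma Bal.kron_one {V : Type} (W : Type) [Fintype V] [DecidableEq V] [Fintype W] [DecidableEq W]
    {k : ι → R} {N : ι → Matrix V V R} (h : Bal k N) :
    Bal k (fun i => N i ⊗ₖ (1 : Matrix W W R)) where
  bin i x y := bin_mul (h.bin i _ _) (bin_one _ _)
  symm i := by rw [kron_tr, h.symm, Matrix.transpose_one]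
  comm i j := by simp only [← mul_kronecker_mul, Matrix.mul_one]; rw [h.comm]
  row i x := by
    obtain ⟨x, x'⟩ := x
    simp [Fintype.sum_prod_type, Matrix.one_apply, h.row]
  sq := by
    simp only [← mul_kronecker_mul, Matrix.mul_one]
    rw [sum_kron, h.sq, smul_kronecker, one_kronecker_one]

lemma Bal.one_kron (V : Type) {W : Type} [Fintype V] [DecidableEq V] [Fintype W] [DecidableEq W]
    {k : ι → R} {N : ι → Matrix W W R} (h : Bal k N) :
    Bal k (fun i => (1 : Matrix V V R) ⊗ₖ N i) where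
  bin i x y := bin_mul (bin_one _ _) (h.bin i _ _)
  symm i := by rw [kron_tr, h.symm, Matrix.transpose_one]
  comm i j := by simp only [← mul_kronecker_mul, Matrix.mul_one]; rw [h.comm]
  row i x := by
    obtain ⟨x, x'⟩ := x
    simp [Fintype.sum_prod_type, Matrix.one_apply, h.row]
  sq := by
    simp only [← mul_kronecker_mul, Matrix.mul_one]
    rw [kron_sum, h.sq, kronecker_smul, one_kronecker_one]

lemma Two.kron {V W : Type} [Fintype V] [DecidableEq V] [Fintype W] [DecidableEq W]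
    {k : ι → R} {k' : κ → R} {N : ι → Matrix V V R} {N' : κ → Matrix W W R}
    (h : Bal k N) (h' : Bal k' N') :
    Two k k' (fun i => N i ⊗ₖ (1 : Matrix W W R)) (fun j => (1 : Matrix V V R) ⊗ₖ N' j) where
  left := h.kron_one W
  right := h'.one_kron V
  comm i j := by simp only [← mul_kronecker_mul, Matrix.mul_one, Matrix.one_mul]

lemma Two.submatrix {V W : Type} [Fintype V] [DecidableEq V] [Fintype W] [DecidableEq W]
    {k : ι → R} {k' : κ → R} {N : ι → Matrix V V R} {N' : κ → Matrix V V R}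
    (h : Two k k' N N') (e : W ≃ V) :
    Two k k' (fun i => (N i).submatrix e e) (fun j => (N' j).submatrix e e) where
  left := h.left.submatrix e
  right := h.right.submatrix e
  comm i j := by rw [Matrix.submatrix_mul_equiv, Matrix.submatrix_mul_equiv, h.comm]

lemma Two.sum {V W : Type} [Fintype V] [DecidableEq V] [Fintype W] [DecidableEq W]
    {k : ι → R} {k' : κ → R} {N : ι → Matrix V V R} {N' : κ → Matrix V V R}
    {L : ι → Matrix W W R} {L' : κ → Matrix W W R} (h : Two k k' N N') (h' : Two k k' L L') :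
    Two k k' (fun i => fromBlocks (N i) 0 0 (L i)) (fun j => fromBlocks (N' j) 0 0 (L' j)) where
  left := h.left.sum h'.left
  right := h.right.sum h'.right
  comm i j := by
    rw [fromBlocks_multiply, fromBlocks_multiply, h.comm i j, h'.comm i j]; simp

/-- two commuting balanced families of order `n` exist -/
def HasTwo (k : ι → R) (k' : κ → R) (n : ℕ) : Prop :=
  ∃ (N : ι → Matrix (Fin n) (Fin n) R) (N' : κ → Matrix (Fin n) (Fin n) R), Two k k' N N'

lemma Two.has {V : Type} [Fintype V] [DecidableEq V] {k : ι → R} {k' : κ → R}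
    {N : ι → Matrix V V R} {N' : κ → Matrix V V R} (h : Two k k' N N') {n : ℕ}
    (hn : Fintype.card V = n) : HasTwo k k' n :=
  ⟨_, _, h.submatrix (Fintype.equivFinOfCardEq hn).symm⟩

lemma HasTwo.nsmul {k : ι → R} {k' : κ → R} {a : ℕ} (h : HasTwo k k' a) (t : ℕ) :
    HasTwo k k' (t * a) := by
  induction t with
  | zero =>
    obtain ⟨N, hN⟩ := HasBal.zero k
    obtain ⟨N', hN'⟩ := HasBal.zero k'
    exact (Two.kron hN hN').has (by simp)
  | succ t ih =>
    obtain ⟨N, N', hN⟩ := ih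
    obtain ⟨L, L', hL⟩ := h
    exact (hN.sum hL).has (by simp [Nat.succ_mul])

lemma cof_two {k : ι → R} {k' : κ → R} (h : Cof k) (h' : Cof k') :
    ∃ n0, ∀ n, n0 ≤ n → HasTwo k k' n := by
  obtain ⟨a, ha⟩ := h
  obtain ⟨b, hb⟩ := h'
  have key : ∀ n, a + b ≤ n → HasTwo k k' (n * n) := by
    intro n hn
    obtain ⟨N, hN⟩ := ha n (by omega)
    obtain ⟨N', hN'⟩ := hb n (by omega)
    exact (Two.kron hN hN').has (by simp)
  have c1 : Nat.Coprime (a + b) (a + b + 1) := by simp
  have c2 : Nat.Coprime ((a + b) * (a + b)) ((a + b + 1) * (a + b + 1)) :=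
    Nat.Coprime.mul_left (Nat.Coprime.mul_right c1 c1) (Nat.Coprime.mul_right c1 c1)
  refine ⟨((a + b) * (a + b)).pred * ((a + b + 1) * (a + b + 1)).pred, fun n hn => ?_⟩
  obtain ⟨x, y, rfl⟩ := Nat.exists_add_mul_eq_of_gcd_dvd_of_mul_pred_le _ _ n
    (by rw [c2]; exact one_dvd _) hn
  obtain ⟨N, N', hN⟩ := (key (a + b) le_rfl).nsmul x
  obtain ⟨L, L', hL⟩ := (key (a + b + 1) (by omega)).nsmul y
  exact (hN.sum hL).has (by simp)

lemma cof_two_univ {k : ι → R} {k' : κ → R} (h : Cof k) (h' : Cof k') (i0 : ι) {r u : ℕ}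
    {N : ι → Matrix (Fin u) (Fin u) R} (hN : Bal k N) (hU : Univ r (N i0)) :
    ∃ n0, ∀ n, n0 ≤ n → ∃ (L : ι → Matrix (Fin n) (Fin n) R) (L' : κ → Matrix (Fin n) (Fin n) R),
      Two k k' L L' ∧ Univ r (L i0) := by
  obtain ⟨n0, h0⟩ := cof_two h h'
  obtain ⟨b, hb⟩ := h'
  obtain ⟨N', hN'⟩ := hb (b + 1) (by omega)
  refine ⟨u * (b + 1) + n0, fun n hn => ?_⟩
  obtain ⟨L, L', hL⟩ := h0 (n - u * (b + 1)) (by omega)
  have hc : Fintype.card ((Fin u × Fin (b + 1)) ⊕ Fin (n - u * (b + 1))) = n := by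
    simp only [Fintype.card_sum, Fintype.card_prod, Fintype.card_fin]; omega
  refine ⟨_, _, ((Two.kron hN hN').sum hL).submatrix (Fintype.equivFinOfCardEq hc).symm,
    Univ.submatrix ?_ _⟩
  intro π
  obtain ⟨f, g, hf, hg, hD⟩ := hU π
  refine ⟨fun a => .inl (f a, 0), fun a => .inl (g a, 0), fun a a' h => hf ?_,
    fun a a' h => hg ?_, fun a b => ?_⟩
  · simpa using h
  · simpa using h
  · simpa using hD a b

end

/-- a sign matrix with orthogonal rows that contains every sign pattern of size `r` -/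
def MU (R : Type) [CommRing R] (V : Type) [Fintype V] [DecidableEq V] (s : R) (r : ℕ) : Prop :=
  ∃ X : Matrix V V R, (∀ x y, X x y = 1 ∨ X x y = -1) ∧ X * Xᵀ = s • 1 ∧
    ∀ π : Fin r → Fin r → Bool, ∃ f g : Fin r → V, Function.Injective f ∧ Function.Injective g ∧
      ∀ a b, X (f a) (g b) = if π a b then -1 else 1

lemma MU.of_card {V W : Type} [Fintype V] [DecidableEq V] [Fintype W] [DecidableEq W] {s : R}
    {r : ℕ} (h : MU R V s r) (hc : Fintype.card W = Fintype.card V) : MU R W s r := by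
  obtain ⟨H, h1, h2, h3⟩ := h
  let e : W ≃ V := Fintype.equivOfCardEq hc
  refine ⟨H.submatrix e e, fun i j => h1 _ _, ?_, fun π => ?_⟩
  · rw [Matrix.transpose_submatrix, Matrix.submatrix_mul_equiv, h2]
    ext i j
    simp only [Matrix.submatrix_apply, Matrix.smul_apply, Matrix.one_apply, e.injective.eq_iff]
  · obtain ⟨f, g, hf, hg, hD⟩ := h3 π
    exact ⟨fun a => e.symm (f a), fun a => e.symm (g a), e.symm.injective.comp hf,
      e.symm.injective.comp hg, fun a b => by simpa using hD a b⟩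

lemma MU.double {V : Type} [Fintype V] [DecidableEq V] {s : R} {r : ℕ} (h : MU R V s r) :
    MU R (V ⊕ V) (2 * s) r := by
  obtain ⟨H, h1, h2, h3⟩ := h
  refine ⟨fromBlocks H H H (-H), ?_, ?_, fun π => ?_⟩
  · rintro (x | x) (y | y)
    · exact h1 x y
    · exact h1 x y
    · exact h1 x y
    · rcases h1 x y with h | h <;> simp [h]
  · rw [fromBlocks_transpose, fromBlocks_multiply, ← fromBlocks_one, fromBlocks_smul]
    simp only [Matrix.transpose_neg, Matrix.mul_neg, Matrix.neg_mul, neg_neg, h2, add_neg_cancel,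
      smul_zero, two_mul, add_smul]
  · obtain ⟨f, g, hf, hg, hD⟩ := h3 π
    exact ⟨fun a => .inl (f a), fun a => .inl (g a), Sum.inl_injective.comp hf,
      Sum.inl_injective.comp hg, fun a b => hD a b⟩

lemma MU.two_pow {n : ℕ} {s : R} {r : ℕ} (h : MU R (Fin n) s r) (t : ℕ) :
    MU R (Fin (2 ^ t * n)) (2 ^ t * s) r := by
  induction t with
  | zero => simpa using h.of_card (by simp)
  | succ t ih =>
    have := ih.double
    rw [← mul_assoc, ← pow_succ'] at this
    exact this.of_card (by simp; ring)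

lemma MU.map {R' : Type} [CommRing R'] (φ : R →+* R') {V : Type} [Fintype V] [DecidableEq V]
    {s : R} {r : ℕ} (h : MU R V s r) : MU R' V (φ s) r := by
  obtain ⟨H, h1, h2, h3⟩ := h
  refine ⟨H.map φ, fun x y => ?_, ?_, fun π => ?_⟩
  · rcases h1 x y with h | h <;> simp [h]
  · rw [← Matrix.transpose_map, ← Matrix.map_mul, h2]
    ext x y
    simp only [Matrix.map_apply, Matrix.smul_apply, Matrix.one_apply, smul_eq_mul]
    split_ifs <;> simp
  · obtain ⟨f, g, hf, hg, hD⟩ := h3 π
    refine ⟨f, g, hf, hg, fun a b => ?_⟩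
    rw [Matrix.map_apply, hD]
    split_ifs <;> simp

lemma od_array {V : Type} [Fintype V] [DecidableEq V] (P Q S T : Matrix V V R) (c : R)
    (sP : Pᵀ = P) (sQ : Qᵀ = Q) (sS : Sᵀ = -S) (sT : Tᵀ = -T)
    (hPQ : Q * P = P * Q) (hPS : S * P = P * S) (hPT : T * P = P * T) (hQS : S * Q = Q * S)
    (hQT : T * Q = Q * T) (hST : T * S = S * T)
    (hsq : P * P + Q * Q - (S * S + T * T) = c • 1) :
    fromBlocks (P + S) (Q + T) (Q - T) (S - P) * (fromBlocks (P + S) (Q + T) (Q - T) (S - P))ᵀ =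
      c • 1 := by
  rw [← fromBlocks_one, fromBlocks_smul]
  simp only [fromBlocks_transpose, fromBlocks_multiply, Matrix.transpose_add, Matrix.transpose_sub,
    sP, sQ, sS, sT, Matrix.add_mul, Matrix.mul_add, Matrix.sub_mul, Matrix.mul_sub,
    Matrix.mul_neg, hPQ, hPS, hPT, hQS, hQT, hST, smul_zero, ← hsq]
  congr 1 <;> abel

lemma sub_kron {V W : Type} (A B : Matrix V V R) (C : Matrix W W R) :
    (A - B) ⊗ₖ C = A ⊗ₖ C - B ⊗ₖ C := by
  ext ⟨x, y⟩ ⟨x', y'⟩; simp [sub_mul]

lemma neg_kron {V W : Type} (A : Matrix V V R) (C : Matrix W W R) :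
    (-A) ⊗ₖ C = -(A ⊗ₖ C) := by
  ext ⟨x, y⟩ ⟨x', y'⟩; simp

lemma Two.mu (q : ℕ) [Fact q.Prime] (hq : q % 8 = 5) {u r : ℕ} {k : Fin 2 → R}
    {k' : Unit ⊕ Unit → R} {N : Fin 2 → Matrix (Fin u) (Fin u) R}
    {N' : Unit ⊕ Unit → Matrix (Fin u) (Fin u) R} (h : Two k k' N N') (hU : Univ r (N 0))
    (hu : 2 * ((q : R) + 1) * u = 4 * (∑ j, k' j + q * ∑ i, k i)) :
    MU R (Fin (2 * (q + 1) * u)) (2 * ((q : R) + 1) * u) r := by
  classical
  obtain ⟨A0, B0, sA0, sB0, cAB0, sq0, off0, dg0, a0, b0⟩ := exists_quartic q hq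
  let φ : ℤ →+* R := Int.castRingHom R
  let A := A0.map φ
  let B := B0.map φ
  have sA : Aᵀ = -A := by
    ext x y; have := congrFun (congrFun sA0 x) y; simp [A, φ] at this ⊢; simp [this]
  have sB : Bᵀ = -B := by
    ext x y; have := congrFun (congrFun sB0 x) y; simp [B, φ] at this ⊢; simp [this]
  have cAB : B * A = A * B := by
    simp only [A, B, ← Matrix.map_mul, cAB0]
  have sq : A * A + B * B = -((q : R) • 1) := by
    simp only [A, B, ← Matrix.map_mul]
    rw [← Matrix.map_add _ (map_add φ), sq0]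
    ext x y
    simp only [Matrix.map_apply, Matrix.neg_apply, Matrix.smul_apply, Matrix.one_apply,
      smul_eq_mul, φ]
    split_ifs <;> simp
  have off : ∀ x y, x ≠ y → ((A x y = 1 ∨ A x y = -1) ∧ B x y = 0) ∨
      (A x y = 0 ∧ (B x y = 1 ∨ B x y = -1)) := by
    intro x y hxy
    rcases off0 x y hxy with ⟨h1 | h1, h2⟩ | ⟨h1, h2 | h2⟩ <;> simp [A, B, h1, h2]
  have dg : ∀ x, A x x = 0 ∧ B x x = 0 := fun x => by simp [A, B, dg0 x]
  let M : Fin 2 ⊕ (Unit ⊕ Unit) → Matrix (Fin u) (Fin u) R := Sum.elim N N'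
  let κ : Fin 2 ⊕ (Unit ⊕ Unit) → R := Sum.elim k k'
  have Mbin : ∀ i x y, M i x y = 0 ∨ M i x y = 1 := by
    rintro (i | i)
    · exact h.left.bin i
    · exact h.right.bin i
  have Msy : ∀ i, (M i)ᵀ = M i := by
    rintro (i | i)
    · exact h.left.symm i
    · exact h.right.symm i
  have Mco : ∀ i j, M i * M j = M j * M i := by
    rintro (i | i) (j | j)
    · exact h.left.comm i j
    · exact h.comm i j
    · exact (h.comm j i).symm
    · exact h.right.comm i j
  have MJ : ∀ i, M i * Jm R _ = κ i • Jm R _ ∧ Jm R _ * M i = κ i • Jm R _ := by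
    rintro (i | i)
    · exact h.left.J_mul i
    · exact h.right.J_mul i
  let X : (Fin 2 ⊕ (Unit ⊕ Unit)) → Matrix (Fin u) (Fin u) R := fun i => Jm R _ - (2 : R) • M i
  have pm : ∀ i x y, X i x y = 1 ∨ X i x y = -1 := by
    intro i x y
    simp only [X, Jm, Matrix.sub_apply, Matrix.of_apply, Matrix.smul_apply, smul_eq_mul]
    rcases Mbin i x y with h | h <;> rw [h]
    · left; ring
    · right; ring
  have sy : ∀ i, (X i)ᵀ = X i := by
    intro i
    simp only [X, Matrix.transpose_sub, Matrix.transpose_smul, Msy]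
    rfl
  have mu : ∀ i j, X i * X j = ((u : R) - 2 * κ i - 2 * κ j) • Jm R _ + (4 : R) • (M i * M j) := by
    intro i j
    simp only [X, Matrix.sub_mul, Matrix.mul_sub, Matrix.smul_mul, Matrix.mul_smul, J_mul_J,
      (MJ i).1, (MJ j).2, Fintype.card_fin]
    module
  have co : ∀ i j, X i * X j = X j * X i := by
    intro i j
    rw [mu, mu, Mco i j]
    congr 2; ring
  have hs1 := h.left.sq
  have hs2 := h.right.sq
  simp only [Fintype.sum_sum_type, Fin.sum_univ_two, Finset.univ_unique, Finset.sum_singleton]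
    at hs1 hs2 hu
  set X1 := X (.inr (.inl ())) with hX1
  set X2 := X (.inr (.inr ())) with hX2
  set X3 := X (.inl 0) with hX3
  set X4 := X (.inl 1) with hX4
  have tot : X1 * X1 + X2 * X2 + (q : R) • (X3 * X3 + X4 * X4) =
      (2 * ((q : R) + 1) * u) • 1 := by
    have e1 : X3 * X3 + X4 * X4 = (2 * (u : R) - 4 * (k 0 + k 1)) • Jm R _ +
        (4 : R) • (N 0 * N 0 + N 1 * N 1) := by
      rw [mu, mu]; simp only [κ, M, Sum.elim_inl]; module
    have e2 : X1 * X1 + X2 * X2 = (2 * (u : R) - 4 * (k' (.inl ()) + k' (.inr ()))) • Jm R _ +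
        (4 : R) • (N' (.inl ()) * N' (.inl ()) + N' (.inr ()) * N' (.inr ())) := by
      rw [mu, mu]; simp only [κ, M, Sum.elim_inr]; module
    rw [e1, e2, hs1, hs2]
    have e3 : 2 * (u : R) - 4 * (k' (.inl ()) + k' (.inr ())) =
        -(q : R) * (2 * (u : R) - 4 * (k 0 + k 1)) := by linear_combination hu
    rw [e3, hu]
    module
  have c12 : X2 * X1 = X1 * X2 := co _ _
  have c13 : X3 * X1 = X1 * X3 := co _ _
  have c14 : X4 * X1 = X1 * X4 := co _ _
  have c23 : X3 * X2 = X2 * X3 := co _ _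
  have c24 : X4 * X2 = X2 * X4 := co _ _
  have c34 : X4 * X3 = X3 * X4 := co _ _
  have key := od_array ((1 : Matrix (Option (ZMod q)) (Option (ZMod q)) R) ⊗ₖ X1) (1 ⊗ₖ X2)
    (A ⊗ₖ X3 - B ⊗ₖ X4) (A ⊗ₖ X4 + B ⊗ₖ X3) (2 * ((q : R) + 1) * u)
    (by rw [kron_tr, sy, Matrix.transpose_one]) (by rw [kron_tr, sy, Matrix.transpose_one])
    (by rw [Matrix.transpose_sub, kron_tr, kron_tr, sy, sy, sA, sB, neg_kron, neg_kron]; abel)
    (by rw [Matrix.transpose_add, kron_tr, kron_tr, sy, sy, sA, sB, neg_kron, neg_kron]; abel)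
    (by simp only [← mul_kronecker_mul, c12])
    (by simp only [Matrix.sub_mul, Matrix.mul_sub, ← mul_kronecker_mul, Matrix.mul_one,
          Matrix.one_mul, c13, c14])
    (by simp only [Matrix.add_mul, Matrix.mul_add, ← mul_kronecker_mul, Matrix.mul_one,
          Matrix.one_mul, c13, c14])
    (by simp only [Matrix.sub_mul, Matrix.mul_sub, ← mul_kronecker_mul, Matrix.mul_one,
          Matrix.one_mul, c23, c24])
    (by simp only [Matrix.add_mul, Matrix.mul_add, ← mul_kronecker_mul, Matrix.mul_one,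
          Matrix.one_mul, c23, c24])
    (by simp only [Matrix.add_mul, Matrix.mul_add, Matrix.sub_mul, Matrix.mul_sub,
          ← mul_kronecker_mul, c34, cAB]
        abel)
    (by
      have e1 : (A ⊗ₖ X3 - B ⊗ₖ X4) * (A ⊗ₖ X3 - B ⊗ₖ X4) +
          (A ⊗ₖ X4 + B ⊗ₖ X3) * (A ⊗ₖ X4 + B ⊗ₖ X3) = (A * A + B * B) ⊗ₖ (X3 * X3 + X4 * X4) := by
        simp only [Matrix.add_mul, Matrix.mul_add, Matrix.sub_mul, Matrix.mul_sub,
          ← mul_kronecker_mul, c34, cAB, add_kronecker, kronecker_add]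
        abel
      rw [e1, sq, neg_kron, sub_neg_eq_add, smul_kronecker, ← kronecker_smul,
        ← mul_kronecker_mul, ← mul_kronecker_mul, Matrix.mul_one, ← kronecker_add,
        ← kronecker_add, tot, kronecker_smul, one_kronecker_one])
  refine MU.of_card (V := (Option (ZMod q) × Fin u) ⊕ (Option (ZMod q) × Fin u))
    ⟨_, ?_, key, fun π => ?_⟩ (by simp; ring)
  · have neg : ∀ {a : R}, (a = 1 ∨ a = -1) → (-a = 1 ∨ -a = -1) := by
      rintro a (rfl | rfl) <;> simp
    rintro (⟨x, v⟩ | ⟨x, v⟩) (⟨y, w⟩ | ⟨y, w⟩) <;>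
      simp only [fromBlocks_apply₁₁, fromBlocks_apply₁₂, fromBlocks_apply₂₁, fromBlocks_apply₂₂,
        Matrix.add_apply, Matrix.sub_apply, kronecker_apply, Matrix.one_apply] <;>
      by_cases hxy : x = y
    all_goals first
      | (subst hxy
         simp only [if_true, (dg x).1, (dg x).2, zero_mul, one_mul, sub_zero, add_zero, zero_sub]
         first | exact pm _ _ _ | exact neg (pm _ _ _))
      | (rcases off x y hxy with ⟨h1 | h1, h2⟩ | ⟨h1, h2 | h2⟩ <;>
         simp only [if_neg hxy, h1, h2, zero_mul, one_mul, neg_mul, sub_zero, add_zero, zero_sub,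
           zero_add, neg_neg] <;>
         first | exact pm _ _ _ | exact neg (pm _ _ _))
  · obtain ⟨f, g, hf, hg, hD⟩ := hU π
    refine ⟨fun a => .inl (none, f a), fun a => .inl (some 0, g a), fun a a' h => hf ?_,
      fun a a' h => hg ?_, fun a b => ?_⟩
    · simpa using h
    · simpa using h
    · have hA : A none (some 0) = 1 := by simp [A, a0]
      have hB : B none (some 0) = 0 := by simp [B, b0]
      simp only [fromBlocks_apply₁₁, Matrix.add_apply, Matrix.sub_apply, kronecker_apply, hA, hB,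
        Matrix.one_apply, reduceCtorEq, if_false, zero_mul, one_mul, sub_zero, zero_add, hX3, X, M,
        Sum.elim_inl, Matrix.smul_apply, Jm, Matrix.of_apply, hD, smul_eq_mul]
      split_ifs <;> ring

end Pool.Agent.MP_d8b1b3_co.ModA
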