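import Mathlib
import Pool.Agent.MP_d8b1b3_co.ModA.Two

/-!
The blow-up lemma and weighing matrices of every weight.
-/

set_option autoImplicit false

namespace Pool.Agent.MP_d8b1b3_co.ModA

open Matrix
open scoped Kronecker

variable {R : Type} [CommRing R]

/-- Blow-up: rows and columns of a submatrix that contains a weighing matrix of weight a quarter of
the order can be repeated `t` more times when `t` vanishes in `R`. -/
lemma fat {V : Type} [Fintype V] [DecidableEq V] {r : ℕ} (H : Matrix V V R) (c : R)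
    (pm : ∀ x y, H x y = 1 ∨ H x y = -1) (hH : H * Hᵀ = (4 * c) • 1)
    (W : Matrix (Fin r) (Fin r) R) (hW : W * Wᵀ = c • 1) (f g : Fin r → V)
    (hf : Function.Injective f) (hg : Function.Injective g)
    (hsub : ∀ a b, W a b = 0 ∨ W a b = H (f a) (g b)) (t : ℕ) (ht : (t : R) = 0) :
    MH R (V ⊕ (Fin r × Fin t)) := by
  classical
  let F : Matrix V (Fin r) R := Matrix.of fun i a => if i = f a then 1 else 0
  let G : Matrix V (Fin r) R := Matrix.of fun i a => if i = g a then 1 else 0
  let E : Matrix (Fin r × Fin t) (Fin r) R := Matrix.of fun p a => if p.1 = a then 1 else 0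
  let Wt : Matrix (Fin r × Fin t) (Fin r × Fin t) R := W ⊗ₖ (1 : Matrix (Fin t) (Fin t) R)
  have FF : Fᵀ * F = 1 := by
    ext a b
    simp [F, Matrix.mul_apply, Matrix.one_apply, hf.eq_iff, eq_comm]
  have GG : Gᵀ * G = 1 := by
    ext a b
    simp [G, Matrix.mul_apply, Matrix.one_apply, hg.eq_iff, eq_comm]
  have EE : Eᵀ * E = 0 := by
    ext a b
    rw [Matrix.mul_apply, Fintype.sum_prod_type]
    refine Finset.sum_eq_zero fun p _ => ?_
    show ∑ _x : Fin t, (if p = a then (1 : R) else 0) * (if p = b then 1 else 0) = 0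
    rw [Finset.sum_const, Finset.card_univ, Fintype.card_fin, nsmul_eq_mul, ht, zero_mul]
  have WE : Wt * E = E * W := by
    ext ⟨a, x⟩ b
    simp [Wt, E, Matrix.mul_apply, Fintype.sum_prod_type, Matrix.one_apply]
  have EW : Eᵀ * Wtᵀ = Wᵀ * Eᵀ := by
    rw [← Matrix.transpose_mul, WE, Matrix.transpose_mul]
  have WW : Wt * Wtᵀ = c • 1 := by
    simp only [Wt]
    rw [kron_tr, ← mul_kronecker_mul, hW, smul_kronecker]
    simp
  have HG : ∀ i b, (H * G) i b = H i (g b) := by
    intro i b; simp [G, Matrix.mul_apply]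
  have FH : ∀ a j, (Fᵀ * H) a j = H (f a) j := by
    intro a j; simp [F, Matrix.mul_apply]
  have flip : ∀ a b, H (f a) (g b) - 2 * W a b = 1 ∨ H (f a) (g b) - 2 * W a b = -1 := by
    intro a b
    rcases hsub a b with h | h <;> rw [h] <;> rcases pm (f a) (g b) with h' | h' <;> rw [h']
    · left; ring
    · right; ring
    · right; ring
    · left; ring
  have mE : ∀ {U : Type} (Y : Matrix U (Fin r) R) (i : U) (p : Fin r × Fin t),
      (Y * Eᵀ) i p = Y i p.1 := by
    intro U Y i p; simp [E, Matrix.mul_apply]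
  have Em : ∀ {U : Type} (Y : Matrix (Fin r) U R) (p : Fin r × Fin t) (i : U),
      (E * Y) p i = Y p.1 i := by
    intro U Y p i; simp [E, Matrix.mul_apply]
  set B0 : Matrix V (Fin r) R := H * G - (2 : R) • (F * W) with hB0
  set C0 : Matrix (Fin r) V R := Fᵀ * H - (2 : R) • (W * Gᵀ) with hC0
  set K : Matrix (Fin r) (Fin r) R := Fᵀ * H * G - (2 : R) • W with hK
  have HH : ∀ {U : Type} (Y : Matrix V U R), H * (Hᵀ * Y) = (4 * c) • Y := by
    intro U Y; rw [← Matrix.mul_assoc, hH]; simp
  have WW' : ∀ {U : Type} (Y : Matrix (Fin r) U R), W * (Wᵀ * Y) = c • Y := by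
    intro U Y; rw [← Matrix.mul_assoc, hW]; simp
  have GG' : ∀ {U : Type} (Y : Matrix (Fin r) U R), Gᵀ * (G * Y) = Y := by
    intro U Y; rw [← Matrix.mul_assoc, GG]; simp
  have k1 : H * C0ᵀ + (2 : R) • (B0 * Wᵀ) = 0 := by
    simp only [hC0, hB0, Matrix.transpose_sub, Matrix.transpose_smul, Matrix.transpose_mul,
      Matrix.transpose_transpose, Matrix.mul_sub, Matrix.sub_mul, Matrix.mul_smul, Matrix.smul_mul,
      Matrix.mul_assoc, HH, hW, Matrix.mul_one]
    module
  have k2 : C0 * C0ᵀ + (2 : R) • (K * Wᵀ) + (2 : R) • (W * Kᵀ) = 0 := by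
    simp only [hC0, hK, Matrix.transpose_sub, Matrix.transpose_smul, Matrix.transpose_mul,
      Matrix.transpose_transpose, Matrix.mul_sub, Matrix.sub_mul, Matrix.mul_smul, Matrix.smul_mul,
      Matrix.mul_assoc, HH, hW, GG', FF]
    module
  have EE' : ∀ {U : Type} (Y : Matrix (Fin r) U R), Eᵀ * (E * Y) = 0 := by
    intro U Y; rw [← Matrix.mul_assoc, EE]; simp
  have WE' : ∀ {U : Type} (Y : Matrix (Fin r) U R), Wt * (E * Y) = E * (W * Y) := by
    intro U Y; rw [← Matrix.mul_assoc, WE, Matrix.mul_assoc]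
  have off : H * (E * C0)ᵀ + B0 * Eᵀ * (E * K * Eᵀ + (2 : R) • Wt)ᵀ = 0 := by
    have := congrArg (· * Eᵀ) k1
    simp only [Matrix.add_mul, Matrix.smul_mul, Matrix.zero_mul, Matrix.mul_assoc] at this
    simp only [Matrix.transpose_add, Matrix.transpose_smul, Matrix.transpose_mul,
      Matrix.transpose_transpose, Matrix.mul_add, Matrix.mul_smul, Matrix.mul_assoc, EE', EW,
      Matrix.mul_zero, zero_add]
    exact this
  refine ⟨fromBlocks H (B0 * Eᵀ) (E * C0) (E * K * Eᵀ + (2 : R) • Wt), 4 * c, ?_, ?_⟩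
  · rintro (i | ⟨a, x⟩) (j | ⟨b, y⟩)
    · exact pm i j
    · simp only [fromBlocks_apply₁₂, mE, hB0, Matrix.sub_apply, HG, Matrix.smul_apply, smul_eq_mul]
      by_cases hi : ∃ a, i = f a
      · obtain ⟨a, rfl⟩ := hi
        have : (F * W) (f a) b = W a b := by simp [F, Matrix.mul_apply, hf.eq_iff]
        rw [this]; exact flip a b
      · push Not at hi
        have : (F * W) i b = 0 := by simp [F, Matrix.mul_apply, hi]
        rw [this, mul_zero, sub_zero]; exact pm _ _
    · simp only [fromBlocks_apply₂₁, Em, hC0, Matrix.sub_apply, FH, Matrix.smul_apply, smul_eq_mul]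
      by_cases hj : ∃ b, j = g b
      · obtain ⟨b, rfl⟩ := hj
        have : (W * Gᵀ) a (g b) = W a b := by simp [G, Matrix.mul_apply, hg.eq_iff]
        rw [this]; exact flip a b
      · push Not at hj
        have : (W * Gᵀ) a j = 0 := by simp [G, Matrix.mul_apply, hj]
        rw [this, mul_zero, sub_zero]; exact pm _ _
    · have e1 : (Fᵀ * H * G) a b = H (f a) (g b) := by
        rw [Matrix.mul_assoc]
        simp [F, Matrix.mul_apply (M := Fᵀ), HG]
      simp only [fromBlocks_apply₂₂, Matrix.add_apply, mE, Em, hK, Matrix.sub_apply, e1,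
        Matrix.smul_apply, smul_eq_mul, Wt, kronecker_apply, Matrix.one_apply]
      split_ifs
      · rw [mul_one, sub_add_cancel]; exact pm _ _
      · rw [mul_zero, mul_zero, add_zero]; exact flip a b
  · rw [fromBlocks_transpose, fromBlocks_multiply, ← fromBlocks_one, fromBlocks_smul, off]
    have off' := congrArg Matrix.transpose off
    rw [Matrix.transpose_add, Matrix.transpose_mul H, Matrix.transpose_transpose,
      Matrix.transpose_mul (B0 * Eᵀ), Matrix.transpose_transpose, Matrix.transpose_zero] at off'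
    rw [off']
    congr 1
    · simp only [Matrix.transpose_mul, Matrix.transpose_transpose, Matrix.mul_assoc, EE',
        Matrix.mul_zero, add_zero, hH]
    · simp
    · simp
    · have := congrArg (fun Y => E * Y * Eᵀ) k2
      simp only [Matrix.add_mul, Matrix.mul_add, Matrix.smul_mul, Matrix.mul_smul, Matrix.zero_mul,
        Matrix.mul_zero, Matrix.mul_assoc] at this
      simp only [Matrix.transpose_add, Matrix.transpose_smul, Matrix.transpose_mul,
        Matrix.transpose_transpose, Matrix.mul_add, Matrix.add_mul, Matrix.mul_smul,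
        Matrix.smul_mul, Matrix.mul_assoc, EE', EW, WE', WW, Matrix.mul_zero, zero_add]
      rw [← sub_eq_zero, ← this]
      module

/-- weighing matrices of every weight up to `T` in order `2 ^ T` -/
lemma exists_weighing (T : ℕ) : ∀ c ≤ T, ∃ W : Matrix (Fin (2 ^ T)) (Fin (2 ^ T)) R,
    (∀ a b, W a b = 0 ∨ W a b = 1 ∨ W a b = -1) ∧ W * Wᵀ = (c : R) • 1 ∧ Wᵀ * W = (c : R) • 1 := by
  have red : ∀ {n : ℕ} (c : R) (W : Matrix (Fin n ⊕ Fin n) (Fin n ⊕ Fin n) R),
      (∀ a b, W a b = 0 ∨ W a b = 1 ∨ W a b = -1) → W * Wᵀ = c • 1 → Wᵀ * W = c • 1 →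
      ∃ W : Matrix (Fin (n * 2)) (Fin (n * 2)) R,
        (∀ a b, W a b = 0 ∨ W a b = 1 ∨ W a b = -1) ∧ W * Wᵀ = c • 1 ∧ Wᵀ * W = c • 1 := by
    intro n c W h1 h2 h3
    let e : Fin (n * 2) ≃ Fin n ⊕ Fin n := Fintype.equivOfCardEq (by simp; ring)
    refine ⟨W.submatrix e e, fun a b => h1 _ _, ?_, ?_⟩
    · rw [Matrix.transpose_submatrix, Matrix.submatrix_mul_equiv, h2]
      ext i j
      simp only [Matrix.submatrix_apply, Matrix.smul_apply, Matrix.one_apply, e.injective.eq_iff]
    · rw [Matrix.transpose_submatrix, Matrix.submatrix_mul_equiv, h3]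
      ext i j
      simp only [Matrix.submatrix_apply, Matrix.smul_apply, Matrix.one_apply, e.injective.eq_iff]
  induction T with
  | zero =>
    intro c hc
    obtain rfl : c = 0 := by omega
    exact ⟨0, fun _ _ => Or.inl rfl, by simp, by simp⟩
  | succ T ih =>
    intro c hc
    rw [pow_succ]
    rcases c with _ | c
    · exact ⟨0, fun _ _ => Or.inl rfl, by simp, by simp⟩
    obtain ⟨W, h1, h2, h3⟩ := ih c (by omega)
    refine red _ (fromBlocks W 1 1 (-Wᵀ)) ?_ ?_ ?_
    · rintro (a | a) (b | b)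
      · exact h1 a b
      · rcases bin_one (R := R) a b with h | h <;> simp [h]
      · rcases bin_one (R := R) a b with h | h <;> simp [h]
      · rcases h1 b a with h | h | h <;> simp [h]
    · rw [fromBlocks_transpose, fromBlocks_multiply, ← fromBlocks_one, fromBlocks_smul]
      simp [h2, h3, add_smul, add_comm]
    · rw [fromBlocks_transpose, fromBlocks_multiply, ← fromBlocks_one, fromBlocks_smul]
      simp [h2, h3, add_smul, add_comm]

lemma MU.fat {n T c : ℕ} {s : R} (h : MU R (Fin n) s (2 ^ T)) (hc : c ≤ T) (hs : s = 4 * c)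
    (t : ℕ) (ht : (t : R) = 0) : MH R (Fin (n + 2 ^ T * t)) := by
  classical
  obtain ⟨H, h1, h2, h3⟩ := h
  obtain ⟨W, w1, w2, _⟩ := exists_weighing (R := R) T c hc
  obtain ⟨f, g, hf, hg, hD⟩ := h3 fun a b => decide (W a b = -1)
  refine (Pool.Agent.MP_d8b1b3_co.ModA.fat H c h1 (hs ▸ h2) W w2 f g hf hg (fun a b => ?_) t
    ht).of_card (by simp)
  rw [hD]
  by_cases hw : W a b = -1
  · right; simp [hw]
  · rcases w1 a b with h | h | h
    · exact Or.inl h
    · right; rw [if_neg (by simpa using hw), h]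
    · exact absurd h hw

end Pool.Agent.MP_d8b1b3_co.ModA
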