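import Mathlib
import Pool.Agent.MP_d8b1b3_co.ModA.Arith
import Pool.Agent.MP_d8b1b3_co.ModA.Fat

/-!
Modular Hadamard matrices of every large order divisible by four, for every modulus.
-/

set_option autoImplicit false

namespace Pool.Agent.MP_d8b1b3_co.ModA

open Matrix

lemma idm_dvd {M e d : ℕ} (he : (e : ZMod M) * e = e) (hd : d ∣ M) :
    (d : ℤ) ∣ (e : ℤ) * ((e : ℤ) - 1) := by
  have h1 : (((e : ℤ) * ((e : ℤ) - 1) : ℤ) : ZMod M) = 0 := by
    push_cast; linear_combination he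
  rw [ZMod.intCast_zmod_eq_zero_iff_dvd] at h1
  exact dvd_trans (Int.natCast_dvd_natCast.2 hd) h1

lemma idm_prime {M e p : ℕ} (he : (e : ZMod M) * e = e) (hp : p.Prime) (hd : p ∣ M)
    (hn : ¬ p ∣ e) : (p : ℤ) ∣ (e : ℤ) - 1 := by
  rcases (Nat.prime_iff_prime_int.1 hp).dvd_or_dvd (idm_dvd he hd) with h | h
  · exact absurd (Int.natCast_dvd_natCast.1 h) hn
  · exact h

lemma idm_four {M e : ℕ} (he : (e : ZMod M) * e = e) (hd : 4 ∣ M) :
    (2 ∣ e → (4 : ℤ) ∣ e) ∧ (¬ 2 ∣ e → (4 : ℤ) ∣ (e : ℤ) - 1) := by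
  have h : (4 : ℤ) ∣ (e : ℤ) * ((e : ℤ) - 1) := idm_dvd he hd
  obtain ⟨a, r, hr, rfl⟩ : ∃ a r : ℕ, r < 4 ∧ e = 4 * a + r :=
    ⟨e / 4, e % 4, Nat.mod_lt _ (by norm_num), (Nat.div_add_mod e 4).symm⟩
  have h' : (4 : ℤ) ∣ (r : ℤ) * ((r : ℤ) - 1) := by
    have : ((4 * a + r : ℕ) : ℤ) * (((4 * a + r : ℕ) : ℤ) - 1) =
        4 * (a * (4 * a + 2 * r - 1)) + (r : ℤ) * ((r : ℤ) - 1) := by push_cast; ring
    rw [this] at h
    exact (dvd_add_right (dvd_mul_right _ _)).1 h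
  interval_cases r
  · constructor <;> intro _ <;> omega
  · constructor <;> intro _ <;> omega
  · norm_num at h'
  · norm_num at h'

/-- choice of the two idempotent weights -/
lemma exists_idems {M : ℕ} [NeZero M] (h4 : 4 ∣ M) {l : ℕ} (hl : l % 2 = 1) :
    ∃ e2 e3 : ℕ, Cof (fun _ : Unit => (e2 : ZMod M)) ∧ Cof (fun _ : Unit => (e3 : ZMod M)) ∧
      (4 : ℤ) ∣ (l : ℤ) - e2 - e3 - 1 ∧
      ∀ p : ℕ, p.Prime → p ≠ 2 → p ∣ M →
        ¬ (p : ℤ) ∣ (l : ℤ) - e2 - e3 ∧ ¬ (p : ℤ) ∣ (l : ℤ) - e2 - e3 + 1 := by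
  classical
  have hM : M ≠ 0 := NeZero.ne M
  let good : ℕ → ℤ → Prop := fun p c => ¬ (p : ℤ) ∣ (l : ℤ) - c ∧ ¬ (p : ℤ) ∣ (l : ℤ) - c + 1
  obtain ⟨e2, c2, i2, d2⟩ := cof_idem (M := M)
    (M.primeFactors.filter fun p => if p = 2 then l % 4 = 1 else good p 0)
    (fun p hp => Nat.prime_of_mem_primeFactors (Finset.mem_filter.1 hp).1)
  obtain ⟨e3, c3, i3, d3⟩ := cof_idem (M := M)
    (M.primeFactors.filter fun p => if p = 2 then l % 4 = 1 else good p 0 ∨ good p 1)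
    (fun p hp => Nat.prime_of_mem_primeFactors (Finset.mem_filter.1 hp).1)
  have m2 : ∀ p, p.Prime → p ∣ M → (p ∣ e2 ↔ if p = 2 then l % 4 = 1 else good p 0) := by
    intro p hp hd
    rw [d2 p hp, Finset.mem_filter, Nat.mem_primeFactors]
    exact ⟨fun h => h.2, fun h => ⟨⟨hp, hd, hM⟩, h⟩⟩
  have m3 : ∀ p, p.Prime → p ∣ M →
      (p ∣ e3 ↔ if p = 2 then l % 4 = 1 else good p 0 ∨ good p 1) := by
    intro p hp hd
    rw [d3 p hp, Finset.mem_filter, Nat.mem_primeFactors]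
    exact ⟨fun h => h.2, fun h => ⟨⟨hp, hd, hM⟩, h⟩⟩
  refine ⟨e2, e3, c2, c3, ?_, fun p hp hp2 hd => ?_⟩
  · have a2 := m2 2 Nat.prime_two (dvd_trans (by norm_num) h4)
    have a3 := m3 2 Nat.prime_two (dvd_trans (by norm_num) h4)
    simp only [if_true] at a2 a3
    have b2 := idm_four i2 h4
    have b3 := idm_four i3 h4
    by_cases x : l % 4 = 1
    · have := b2.1 (a2.2 x); have := b3.1 (a3.2 x); omega
    · have := b2.2 (mt a2.1 x); have := b3.2 (mt a3.1 x); omega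
  · have a2 := m2 p hp hd
    have a3 := m3 p hp hd
    simp only [if_neg hp2] at a2 a3
    have tr : ∀ c : ℤ, (p : ℤ) ∣ (e2 : ℤ) + e3 - c → good p c →
        ¬ (p : ℤ) ∣ (l : ℤ) - e2 - e3 ∧ ¬ (p : ℤ) ∣ (l : ℤ) - e2 - e3 + 1 := by
      intro c hc hg
      refine ⟨fun h => hg.1 ?_, fun h => hg.2 ?_⟩
      · have := dvd_add h hc
        rwa [show (l : ℤ) - e2 - e3 + (e2 + e3 - c) = l - c by ring] at this
      · have := dvd_add h hc
        rwa [show (l : ℤ) - e2 - e3 + 1 + (e2 + e3 - c) = l - c + 1 by ring] at this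
    have n1 : ¬ (p : ℤ) ∣ 1 := fun h => hp.one_lt.ne' (Nat.dvd_one.1 (by exact_mod_cast h))
    have n2 : ¬ (p : ℤ) ∣ 2 := fun h =>
      hp2 ((Nat.prime_dvd_prime_iff_eq hp Nat.prime_two).1 (by exact_mod_cast h))
    by_cases g0 : good p 0
    · refine tr 0 ?_ g0
      rw [sub_zero]
      exact dvd_add (Int.natCast_dvd_natCast.2 (a2.2 g0))
        (Int.natCast_dvd_natCast.2 (a3.2 (Or.inl g0)))
    by_cases g1 : good p 1
    · refine tr 1 ?_ g1
      rw [show (e2 : ℤ) + e3 - 1 = (e2 - 1) + e3 by ring]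
      exact dvd_add (idm_prime i2 hp hd (mt a2.1 g0))
        (Int.natCast_dvd_natCast.2 (a3.2 (Or.inr g1)))
    · refine tr 2 ?_ ?_
      · rw [show (e2 : ℤ) + e3 - 2 = (e2 - 1) + (e3 - 1) by ring]
        exact dvd_add (idm_prime i2 hp hd (mt a2.1 g0))
          (idm_prime i3 hp hd (mt a3.1 (not_or.2 ⟨g0, g1⟩)))
      · have hl0 : (p : ℤ) ∣ l := by
          by_contra hn
          have u0 : (p : ℤ) ∣ (l : ℤ) - 0 + 1 := by
            by_contra h; exact g0 ⟨by simpa using hn, h⟩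
          have u1 : (p : ℤ) ∣ (l : ℤ) - 1 := by
            by_contra h; exact g1 ⟨h, by simpa using hn⟩
          have := dvd_sub u0 u1
          rw [show (l : ℤ) - 0 + 1 - (l - 1) = 2 by ring] at this
          exact n2 this
        refine ⟨fun h => n2 ?_, fun h => n1 ?_⟩
        · have := dvd_sub hl0 h
          rwa [show (l : ℤ) - (l - 2) = 2 by ring] at this
        · have := dvd_sub hl0 h
          rwa [show (l : ℤ) - (l - 2 + 1) = 1 by ring] at this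

lemma start_odd {M : ℕ} [NeZero M] (h8 : 8 ∣ M) {l : ℕ} (hl : l % 2 = 1) (r : ℕ) :
    ∃ n : ℕ, (n : ZMod M) = 4 * l ∧ MU (ZMod M) (Fin n) (4 * l) r := by
  classical
  have hM : M ≠ 0 := NeZero.ne M
  obtain ⟨e2, e3, c2, c3, x4, xp⟩ := exists_idems (M := M) (dvd_trans (by norm_num) h8) hl
  set x : ℤ := (l : ℤ) - e2 - e3 with hx
  let ρ : ℕ := ∏ p ∈ M.primeFactors.erase 2, p
  have ρodd : ρ % 2 = 1 := by
    rw [← Nat.not_even_iff, even_iff_two_dvd]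
    intro h
    obtain ⟨p, hp, h2⟩ := (Prime.dvd_finsetProd_iff Nat.prime_two.prime _).1 h
    rw [Finset.mem_erase] at hp
    exact hp.1 ((Nat.prime_dvd_prime_iff_eq Nat.prime_two
      (Nat.prime_of_mem_primeFactors hp.2)).1 h2).symm
  have ρdvd : ∀ p, p.Prime → p ≠ 2 → p ∣ M → p ∣ ρ := fun p hp hp2 hd =>
    Finset.dvd_prod_of_mem _ (Finset.mem_erase.2 ⟨hp2, Nat.mem_primeFactors.2 ⟨hp, hd, hM⟩⟩)
  obtain ⟨w', hw'⟩ : ∃ w' : ℕ, (w' = ρ ∧ x % 8 = 1) ∨ (w' = 2 * ρ ∧ x % 8 = 5) := by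
    by_cases h : x % 8 = 1
    · exact ⟨ρ, Or.inl ⟨rfl, h⟩⟩
    · exact ⟨2 * ρ, Or.inr ⟨rfl, by omega⟩⟩
  have wdvd : ∀ p, p.Prime → p ∣ M → p ∣ 2 * w' := by
    intro p hp hd
    by_cases hp2 : p = 2
    · subst hp2; exact dvd_mul_right _ _
    · have := ρdvd p hp hp2 hd
      rcases hw' with ⟨rfl, _⟩ | ⟨rfl, _⟩
      · exact dvd_mul_of_dvd_right this _
      · exact dvd_mul_of_dvd_right (dvd_mul_of_dvd_right this _) _
  obtain ⟨k, hk, ck, hU⟩ := cof_pair_univ (M := M) (2 * w') (by omega) (dvd_mul_right _ _) wdvd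
  obtain ⟨Pi, hPi⟩ : ∃ Pi : ZMod M, (1 + ((2 * w' : ℕ) : ZMod M) * 2) * Pi = 1 :=
    (isUnit_one_add wdvd 2).exists_right_inv
  have xu : IsUnit (x : ZMod M) := by
    rw [ZMod.coe_int_isUnit_iff_isCoprime, Int.isCoprime_iff_gcd_eq_one, Int.gcd_eq_natAbs,
      Int.natAbs_natCast]
    refine Nat.coprime_of_dvd fun p hp h1 h2 => ?_
    have h3 : (p : ℤ) ∣ x := Int.natCast_dvd.2 h2
    by_cases hp2 : p = 2
    · subst hp2
      have : (2 : ℤ) ∣ x := h3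
      omega
    · exact (xp p hp hp2 h1).1 h3
  obtain ⟨q, _, hq, hqa⟩ := Nat.forall_exists_prime_gt_and_eq_mod
    (xu.mul (IsUnit.of_mul_eq_one_right _ hPi)) 0
  have hqP : (q : ZMod M) * (1 + 2 * ((2 * w' : ℕ) : ZMod M)) = x := by
    rw [hqa]; linear_combination (x : ZMod M) * hPi
  have hdiv : (M : ℤ) ∣ (q : ℤ) + 4 * (w' * q) - x := by
    rw [← ZMod.intCast_zmod_eq_zero_iff_dvd]
    push_cast at hqP ⊢
    linear_combination hqP
  have hq8 : q % 8 = 5 := by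
    have h1 : (8 : ℤ) ∣ (q : ℤ) + 4 * (w' * q) - x :=
      dvd_trans (by exact_mod_cast h8) hdiv
    rcases hw' with ⟨h2, h3⟩ | ⟨h2, h3⟩
    · have hq2 : q % 2 = 1 := by omega
      have h4 : (w' * q) % 2 = 1 := by rw [Nat.mul_mod, h2, ρodd, hq2]
      have h5 : ((w' * q : ℕ) : ℤ) = (w' : ℤ) * q := by push_cast; rfl
      omega
    · rw [h2] at h1
      push_cast at h1
      rw [mul_assoc] at h1
      omega
  obtain ⟨h, hh⟩ : ∃ h, q + 1 = 2 * h := ⟨(q + 1) / 2, by omega⟩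
  have hu : IsUnit (h : ZMod M) := by
    rw [ZMod.isUnit_iff_coprime]
    refine Nat.coprime_of_dvd fun p hp h1 h2 => ?_
    by_cases hp2 : p = 2
    · subst hp2; omega
    · refine (xp p hp hp2 h2).2 ?_
      have a1 : (p : ℤ) ∣ (q : ℤ) + 4 * (w' * q) - x :=
        dvd_trans (Int.natCast_dvd_natCast.2 h2) hdiv
      have a2 : (p : ℤ) ∣ (q : ℤ) + 1 := by
        have : p ∣ q + 1 := hh ▸ dvd_mul_of_dvd_right h1 2
        exact_mod_cast this
      have a3 : (p : ℤ) ∣ 4 * (w' * q) := by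
        have : (p : ℤ) ∣ ((2 * w' : ℕ) : ℤ) := Int.natCast_dvd_natCast.2 (wdvd p hp h2)
        push_cast at this
        rw [show (4 : ℤ) * (w' * q) = 2 * w' * (2 * q) by ring]
        exact dvd_mul_of_dvd_left this _
      have := dvd_sub (dvd_add a2 a3) a1
      rwa [show (q : ℤ) + 1 + 4 * (w' * q) - (q + 4 * (w' * q) - x) = x + 1 by ring] at this
  obtain ⟨hi, hhi⟩ := hu.exists_right_inv
  obtain ⟨u1, N1, hN1, hU1⟩ := hU r
  obtain ⟨n0, h0⟩ := cof_two_univ ck (c2.join c3) 0 hN1 hU1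
  let u : ℕ := ((l : ZMod M) * hi).val + M * n0
  have huc : (u : ZMod M) = l * hi := by simp [u]
  obtain ⟨L, L', hL, hLU⟩ := h0 u (by
    have : n0 ≤ M * n0 := Nat.le_mul_of_pos_left _ (Nat.pos_of_ne_zero hM)
    omega)
  have : Fact q.Prime := ⟨hq⟩
  have hq1 : (q : ZMod M) + 1 = 2 * h := by exact_mod_cast congrArg (Nat.cast : ℕ → ZMod M) hh
  have e1 : 2 * ((q : ZMod M) + 1) * u = 4 * l := by
    rw [hq1, huc]; linear_combination (4 * (l : ZMod M)) * hhi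
  have := hL.mu q hq8 hLU (by
    rw [e1, hk, hqP, hx]
    simp only [Fintype.sum_sum_type, Sum.elim_inl, Sum.elim_inr, Finset.univ_unique,
      Finset.sum_singleton]
    push_cast; ring)
  rw [e1] at this
  exact ⟨_, by push_cast; exact e1, this⟩

lemma start {M : ℕ} [NeZero M] (h8 : 8 ∣ M) {l : ℕ} (hl : l ≠ 0) (r : ℕ) :
    ∃ n : ℕ, (n : ZMod M) = 4 * l ∧ MU (ZMod M) (Fin n) (4 * l) r := by
  obtain ⟨s, l', hodd, rfl⟩ := Nat.exists_eq_two_pow_mul_odd hl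
  obtain ⟨n, h1, h2⟩ := start_odd h8 (Nat.odd_iff.1 hodd) r
  refine ⟨2 ^ s * n, by push_cast; rw [h1]; ring, ?_⟩
  have := h2.two_pow s
  convert this using 1
  push_cast; ring

lemma MH.toInt {m n : ℕ} (h : MH (ZMod m) (Fin n)) :
    ∃ H : Matrix (Fin n) (Fin n) ℤ, (∀ i j, H i j = 1 ∨ H i j = -1) ∧
      ∀ i j, i ≠ j → (m : ℤ) ∣ (H * Hᵀ) i j := by
  classical
  obtain ⟨X, c, h1, h2⟩ := h
  let H : Matrix (Fin n) (Fin n) ℤ := Matrix.of fun i j => if X i j = 1 then 1 else -1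
  have hc : ∀ i j, ((H i j : ℤ) : ZMod m) = X i j := by
    intro i j
    simp only [H, Matrix.of_apply]
    split_ifs with h
    · simp [h]
    · simp [(h1 i j).resolve_left h]
  refine ⟨H, fun i j => ?_, fun i j hij => ?_⟩
  · simp only [H, Matrix.of_apply]
    split_ifs <;> simp
  · rw [← ZMod.intCast_zmod_eq_zero_iff_dvd]
    have := congrFun (congrFun h2 i) j
    simp only [Matrix.mul_apply, Matrix.transpose_apply, Matrix.smul_apply, Matrix.one_apply,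
      if_neg hij, smul_zero] at this
    simp only [Matrix.mul_apply, Matrix.transpose_apply]
    push_cast
    simp only [hc, this]

theorem all_moduli (m : ℕ) (hm : 0 < m) : ∃ n0 : ℕ, ∀ n : ℕ, n0 ≤ n → 4 ∣ n →
    ∃ H : Matrix (Fin n) (Fin n) ℤ, (∀ i j, H i j = 1 ∨ H i j = -1) ∧
      ∀ i j, i ≠ j → (m : ℤ) ∣ (H * Hᵀ) i j := by
  let M : ℕ := 2 ^ m * (8 * m)
  have : NeZero M := ⟨by positivity⟩
  have h8 : 8 ∣ M := dvd_mul_of_dvd_right (dvd_mul_right _ _) _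
  have hmM : m ∣ M := dvd_mul_of_dvd_right (dvd_mul_left _ _) _
  have key : ∀ y : ZMod M, ∃ n : ℕ, (n : ZMod M) = 4 * y ∧ MU (ZMod M) (Fin n) (4 * y) (2 ^ m) := by
    intro y
    have := start h8 (l := y.val + M) (by have := NeZero.ne M; omega) (2 ^ m)
    simpa using this
  choose f hf hMU using key
  refine ⟨Finset.univ.sup f, fun n hn h4 => ?_⟩
  obtain ⟨l, rfl⟩ := h4
  have hle : f (l : ZMod M) ≤ 4 * l := le_trans (Finset.le_sup (Finset.mem_univ _)) hn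
  have hmod : f (l : ZMod M) ≡ 4 * l [MOD M] := by
    rw [← ZMod.natCast_eq_natCast_iff, hf]; push_cast; rfl
  obtain ⟨j, hj⟩ := (Nat.modEq_iff_dvd' hle).1 hmod
  have h1 := (hMU (l : ZMod M)).map (ZMod.castHom hmM (ZMod m))
  have h2 := h1.fat (c := l % m) (Nat.mod_lt _ hm).le (by
    rw [map_mul, map_ofNat, map_natCast, ZMod.natCast_mod]) (8 * m * j) (by simp)
  refine (h2.of_card ?_).toInt
  simp only [Fintype.card_fin]
  have : M * j = 2 ^ m * (8 * m * j) := by simp only [M]; ring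
  omega

end Pool.Agent.MP_d8b1b3_co.ModA
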