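import Mathlib

/-!
Paraunitary sequences of coloured signed monomial matrices.
-/

set_option autoImplicit false

namespace Pool.Agent.MP_d8b1b3_co.ModA.Asym

open Matrix
open scoped Kronecker

section Ev

variable {I : Type} [Fintype I] [DecidableEq I]

/-- cast of an integer matrix -/
def cst (R : Type) [CommRing R] {I J : Type} (A : Matrix I J ℤ) : Matrix I J R :=
  A.map (Int.cast : ℤ → R)

variable {R : Type} [CommRing R]

omit [DecidableEq I] in
lemma cst_mul {J K : Type} (A : Matrix J I ℤ) (B : Matrix I K ℤ) :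
    cst R (A * B) = cst R A * cst R B := by
  ext i j; simp [cst, Matrix.mul_apply]

lemma cst_transpose {J K : Type} (A : Matrix J K ℤ) : cst R Aᵀ = (cst R A)ᵀ := rfl

lemma cst_zero {J K : Type} : cst R (0 : Matrix J K ℤ) = 0 := by
  ext i j; simp [cst]

lemma cst_neg {J K : Type} (A : Matrix J K ℤ) : cst R (-A) = -cst R A := by
  ext i j; simp [cst]

/-- evaluation of a sequence of matrices at `u` -/
def ev {I J : Type} (M : ℕ → Matrix I J ℤ) (l : ℕ) (u : R) : Matrix I J R :=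
  ∑ s ∈ Finset.range l, u ^ s • cst R (M s)

lemma ev_apply {I J : Type} (M : ℕ → Matrix I J ℤ) (l : ℕ) (u : R) (i : I) (j : J) :
    ev M l u i j = ∑ s ∈ Finset.range l, u ^ s * (M s i j : R) := by
  simp [ev, Matrix.sum_apply, cst]

def cat {I J : Type} (a : ℕ) (M N : ℕ → Matrix I J ℤ) (s : ℕ) : Matrix I J ℤ :=
  if s < a then M s else N (s - a)

lemma ev_cat {I J : Type} (a b : ℕ) (M N : ℕ → Matrix I J ℤ) (u : R) :
    ev (cat a M N) (a + b) u = ev M a u + u ^ a • ev N b u := by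
  unfold ev
  rw [Finset.sum_range_add, Finset.smul_sum]
  congr 1
  · apply Finset.sum_congr rfl
    intro s hs
    rw [Finset.mem_range] at hs
    simp [cat, hs]
  · apply Finset.sum_congr rfl
    intro s _
    simp [cat, pow_add, smul_smul]

lemma ev_zero {I J : Type} (l : ℕ) (u : R) : ev (fun _ => (0 : Matrix I J ℤ)) l u = 0 := by
  simp [ev, cst_zero]

def rev {I J : Type} (l : ℕ) (M : ℕ → Matrix I J ℤ) (s : ℕ) : Matrix J I ℤ := (M (l - 1 - s))ᵀ

lemma ev_rev {I J : Type} (l : ℕ) (M : ℕ → Matrix I J ℤ) {u v : R} (h : u * v = 1) :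
    ev (rev l M) l u = (u ^ l * v) • (ev M l v)ᵀ := by
  unfold ev
  rw [← Finset.sum_range_reflect, Matrix.transpose_sum, Finset.smul_sum]
  apply Finset.sum_congr rfl
  intro s hs
  rw [Finset.mem_range] at hs
  have e1 : l - 1 - (l - 1 - s) = s := by omega
  have e2 : u ^ (l - 1 - s) = u ^ l * v * v ^ s := by
    have : l = (l - 1 - s) + (s + 1) := by omega
    conv_rhs => rw [this]
    calc u ^ (l - 1 - s) = u ^ (l - 1 - s) * (u * v) ^ (s + 1) := by rw [h]; simp
      _ = _ := by ring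
  rw [rev, e1, e2, Matrix.transpose_smul, smul_smul, cst_transpose]

omit [DecidableEq I] in
lemma ev_mul_right {J K : Type} (M : ℕ → Matrix J I ℤ) (B : Matrix I K ℤ) (l : ℕ) (u : R) :
    ev (fun s => M s * B) l u = ev M l u * cst R B := by
  unfold ev
  rw [Matrix.sum_mul]
  simp [cst_mul]

def prd (a : ℕ) (M N : ℕ → Matrix I I ℤ) (s : ℕ) : Matrix I I ℤ := M (s % a) * N (s / a)

omit [DecidableEq I] in
lemma ev_prd (a b : ℕ) (M N : ℕ → Matrix I I ℤ) (u : R) :
    ev (prd a M N) (a * b) u = ev M a u * ev N b (u ^ a) := by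
  induction b with
  | zero => simp [ev]
  | succ b ih =>
    have h1 : ev N (b + 1) (u ^ a) = ev N b (u ^ a) + (u ^ a) ^ b • cst R (N b) := by
      simp [ev, Finset.sum_range_succ]
    rw [h1, Matrix.mul_add, ← ih, Nat.mul_succ]
    unfold ev
    rw [Finset.sum_range_add]
    congr 1
    rw [Matrix.sum_mul]
    apply Finset.sum_congr rfl
    intro s hs
    rw [Finset.mem_range] at hs
    have ha : 0 < a := by omega
    have e1 : (a * b + s) % a = s := by rw [Nat.mul_add_mod, Nat.mod_eq_of_lt hs]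
    have e2 : (a * b + s) / a = b := by
      rw [Nat.mul_add_div ha, Nat.div_eq_of_lt hs, add_zero]
    rw [prd, e1, e2, cst_mul, Matrix.smul_mul, Matrix.mul_smul, smul_smul]
    congr 1
    ring

lemma ev_fromBlocks {I J K L : Type} (A : ℕ → Matrix I K ℤ) (B : ℕ → Matrix I L ℤ)
    (C : ℕ → Matrix J K ℤ) (D : ℕ → Matrix J L ℤ) (l : ℕ) (u : R) :
    ev (fun s => fromBlocks (A s) (B s) (C s) (D s)) l u =
      fromBlocks (ev A l u) (ev B l u) (ev C l u) (ev D l u) := by
  ext (i | i) (j | j) <;> simp [ev_apply]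

lemma ev_neg {I J : Type} (M : ℕ → Matrix I J ℤ) (l : ℕ) (u : R) :
    ev (fun s => -M s) l u = -ev M l u := by
  ext i j; simp [ev_apply]

lemma ev_submatrix {I J K L : Type} (M : ℕ → Matrix I J ℤ) (e : K → I) (f : L → J) (l : ℕ) (u : R) :
    ev (fun s => (M s).submatrix e f) l u = (ev M l u).submatrix e f := by
  ext i j; simp [ev_apply]

lemma ev_kron_left {I J : Type} [DecidableEq J] (M : ℕ → Matrix I I ℤ) (l : ℕ) (u : R) :
    ev (fun s => M s ⊗ₖ (1 : Matrix J J ℤ)) l u = ev M l u ⊗ₖ (1 : Matrix J J R) := by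
  ext ⟨i, j⟩ ⟨i', j'⟩
  simp only [ev_apply, kronecker_apply, Matrix.one_apply]
  split_ifs <;> simp

lemma ev_kron_right {I J : Type} [DecidableEq J] (M : ℕ → Matrix I I ℤ) (l : ℕ) (u : R) :
    ev (fun s => (1 : Matrix J J ℤ) ⊗ₖ M s) l u = (1 : Matrix J J R) ⊗ₖ ev M l u := by
  ext ⟨j, i⟩ ⟨j', i'⟩
  simp only [ev_apply, kronecker_apply, Matrix.one_apply]
  split_ifs <;> simp

/-- two matrices that are adjoint up to the scalar `n` -/
def Adj (X Y : Matrix I I R) (n : R) : Prop := X * Yᵀ = n • 1 ∧ Yᵀ * X = n • 1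

lemma Adj.mul {X Y X' Y' : Matrix I I R} {n n' : R} (h : Adj X Y n) (h' : Adj X' Y' n') :
    Adj (X * X') (Y * Y') (n * n') := by
  constructor
  · rw [Matrix.transpose_mul, Matrix.mul_assoc, ← Matrix.mul_assoc X', h'.1, Matrix.smul_mul,
      Matrix.one_mul, Matrix.mul_smul, h.1, smul_smul, mul_comm]
  · rw [Matrix.transpose_mul, Matrix.mul_assoc, ← Matrix.mul_assoc Yᵀ, h.2, Matrix.smul_mul,
      Matrix.one_mul, Matrix.mul_smul, h'.2, smul_smul]

lemma Adj.smul {X Y : Matrix I I R} {n a b : R} (h : Adj X Y n) (hab : a * b = 1) :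
    Adj (a • X) (b • Y) n := by
  constructor
  · rw [Matrix.transpose_smul, Matrix.smul_mul, Matrix.mul_smul, h.1, smul_smul, smul_smul, hab,
      one_mul]
  · rw [Matrix.transpose_smul, Matrix.smul_mul, Matrix.mul_smul, h.2, smul_smul, smul_smul,
      mul_comm b a, hab, one_mul]

/-- paraunitary sequence of length `l` and norm `n` -/
def PU (M : ℕ → Matrix I I ℤ) (l n : ℕ) : Prop :=
  ∀ (R : Type) [CommRing R] (u v : R), u * v = 1 → Adj (ev M l u) (ev M l v) (n : R)

/-- projection on a colour class -/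
def E (c : I → Bool) (b : Bool) : Matrix I I ℤ := diagonal fun i => if c i = b then 1 else 0

lemma adj_E (c : I → Bool) {x y : R} (h : x * y = 1) :
    Adj (cst R (E c false) + x • cst R (E c true)) (cst R (E c false) + y • cst R (E c true)) 1 := by
  have key : ∀ z : R, cst R (E c false) + z • cst R (E c true) =
      diagonal fun i => if c i = true then z else 1 := by
    intro z
    ext i j
    by_cases hij : i = j
    · subst hij
      cases hc : c i <;> simp [cst, E, hc]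
    · simp [cst, E, hij]
  rw [key, key]
  constructor
  · rw [diagonal_transpose, diagonal_mul_diagonal, one_smul, ← diagonal_one]
    congr 1; funext i; split_ifs <;> simp [h]
  · rw [diagonal_transpose, diagonal_mul_diagonal, one_smul, ← diagonal_one]
    congr 1; funext i; split_ifs <;> simp [mul_comm y x, h]

end Ev

section OK

variable {I : Type} [DecidableEq I]

/-- every row has exactly one nonzero entry, a sign, in each colour class -/
def RowOK (c : I → Bool) (A : Matrix I I ℤ) : Prop :=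
  ∀ i b, ∃ j, ∃ ε : ℤ, (ε = 1 ∨ ε = -1) ∧ c j = b ∧ ∀ j', c j' = b → A i j' = if j' = j then ε else 0

def OK (c : I → Bool) (A : Matrix I I ℤ) : Prop := RowOK c A ∧ RowOK c Aᵀ

lemma RowOK.mul_apply [Fintype I] {c : I → Bool} {A : Matrix I I ℤ} (h : RowOK c A) (i : I)
    (b : Bool) : ∃ j, ∃ ε : ℤ, (ε = 1 ∨ ε = -1) ∧
      ∀ (B : Matrix I I ℤ) (k : I), (A * E c b * B) i k = ε * B j k := by
  obtain ⟨j, ε, hε, hj, hA⟩ := h i b
  refine ⟨j, ε, hε, fun B k => ?_⟩
  rw [Matrix.mul_apply, Finset.sum_eq_single j]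
  · simp [E, hj, hA j hj]
  · intro j' _ hj'
    by_cases hc : c j' = b
    · simp [E, hA j' hc, hj']
    · simp [E, hc]
  · simp

lemma RowOK.mul [Fintype I] {c : I → Bool} {A B : Matrix I I ℤ} (h : RowOK c A) (h' : RowOK c B)
    (b : Bool) : RowOK c (A * E c b * B) := by
  intro i b'
  obtain ⟨j, ε, hε, hA⟩ := h.mul_apply i b
  obtain ⟨k, ε', hε', hk, hB⟩ := h' j b'
  refine ⟨k, ε * ε', ?_, hk, fun k' hk' => ?_⟩
  · rcases hε with rfl | rfl <;> rcases hε' with rfl | rfl <;> simp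
  · rw [hA, hB k' hk']; split_ifs <;> simp

lemma OK.mul [Fintype I] {c : I → Bool} {A B : Matrix I I ℤ} (h : OK c A) (h' : OK c B)
    (b : Bool) : OK c (A * E c b * B) := by
  refine ⟨h.1.mul h'.1 b, ?_⟩
  have : (A * E c b * B)ᵀ = Bᵀ * E c b * Aᵀ := by
    rw [Matrix.transpose_mul, Matrix.transpose_mul, Matrix.mul_assoc]
    simp [E]
  rw [this]
  exact h'.2.mul h.2 b

lemma OK.transpose {c : I → Bool} {A : Matrix I I ℤ} (h : OK c A) : OK c Aᵀ := ⟨h.2, h.1⟩

lemma RowOK.neg {c : I → Bool} {A : Matrix I I ℤ} (h : RowOK c A) : RowOK c (-A) := by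
  intro i b
  obtain ⟨j, ε, hε, hj, hA⟩ := h i b
  refine ⟨j, -ε, ?_, hj, fun j' hj' => ?_⟩
  · rcases hε with rfl | rfl <;> simp
  · rw [Matrix.neg_apply, hA j' hj']; split_ifs <;> simp

lemma OK.neg {c : I → Bool} {A : Matrix I I ℤ} (h : OK c A) : OK c (-A) :=
  ⟨h.1.neg, h.2.neg⟩

lemma RowOK.submatrix {J : Type} [DecidableEq J] {c : I → Bool} {A : Matrix I I ℤ} (h : RowOK c A)
    (e : J ≃ I) : RowOK (fun j => c (e j)) (A.submatrix e e) := by
  intro i b
  obtain ⟨j, ε, hε, hj, hA⟩ := h (e i) b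
  refine ⟨e.symm j, ε, hε, by simpa using hj, fun j' hj' => ?_⟩
  rw [Matrix.submatrix_apply, hA _ hj']
  simp [Equiv.eq_symm_apply]

lemma OK.submatrix {J : Type} [DecidableEq J] {c : I → Bool} {A : Matrix I I ℤ} (h : OK c A)
    (e : J ≃ I) : OK (fun j => c (e j)) (A.submatrix e e) :=
  ⟨h.1.submatrix e, h.2.submatrix e⟩

lemma RowOK.kron_left {J : Type} [DecidableEq J] {c : I → Bool} {A : Matrix I I ℤ} (h : RowOK c A)
    (d : J → Bool) : RowOK (fun p : I × J => xor (c p.1) (d p.2)) (A ⊗ₖ (1 : Matrix J J ℤ)) := by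
  rintro ⟨i, k⟩ b
  obtain ⟨j, ε, hε, hj, hA⟩ := h i (xor b (d k))
  refine ⟨(j, k), ε, hε, by simp [hj], ?_⟩
  rintro ⟨j', k'⟩ hc
  simp only [kronecker_apply, Matrix.one_apply, Prod.mk.injEq]
  by_cases hk : k = k'
  · subst hk
    have : c j' = xor b (d k) := by
      simp only at hc
      rw [← hc]; simp
    rw [hA j' this]; simp
  · simp [hk, Ne.symm hk]

lemma OK.kron_left {J : Type} [DecidableEq J] {c : I → Bool} {A : Matrix I I ℤ} (h : OK c A)
    (d : J → Bool) : OK (fun p : I × J => xor (c p.1) (d p.2)) (A ⊗ₖ (1 : Matrix J J ℤ)) := by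
  refine ⟨h.1.kron_left d, ?_⟩
  have : (A ⊗ₖ (1 : Matrix J J ℤ))ᵀ = Aᵀ ⊗ₖ (1 : Matrix J J ℤ) := by
    rw [← kroneckerMap_transpose, Matrix.transpose_one]
  rw [this]
  exact h.2.kron_left d

lemma RowOK.kron_right {J : Type} [DecidableEq J] {c : I → Bool} {A : Matrix I I ℤ} (h : RowOK c A)
    (d : J → Bool) : RowOK (fun p : J × I => xor (d p.1) (c p.2)) ((1 : Matrix J J ℤ) ⊗ₖ A) := by
  rintro ⟨k, i⟩ b
  obtain ⟨j, ε, hε, hj, hA⟩ := h i (xor (d k) b)
  refine ⟨(k, j), ε, hε, by simp [hj], ?_⟩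
  rintro ⟨k', j'⟩ hc
  simp only [kronecker_apply, Matrix.one_apply, Prod.mk.injEq]
  by_cases hk : k = k'
  · subst hk
    have : c j' = xor (d k) b := by
      simp only at hc
      rw [← hc]; simp
    rw [hA j' this]; simp
  · simp [hk, Ne.symm hk]

lemma OK.kron_right {J : Type} [DecidableEq J] {c : I → Bool} {A : Matrix I I ℤ} (h : OK c A)
    (d : J → Bool) : OK (fun p : J × I => xor (d p.1) (c p.2)) ((1 : Matrix J J ℤ) ⊗ₖ A) := by
  refine ⟨h.1.kron_right d, ?_⟩
  have : ((1 : Matrix J J ℤ) ⊗ₖ A)ᵀ = (1 : Matrix J J ℤ) ⊗ₖ Aᵀ := by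
    rw [← kroneckerMap_transpose, Matrix.transpose_one]
  rw [this]
  exact h.2.kron_right d

lemma RowOK.diag {c : I → Bool} {A D : Matrix I I ℤ} (h : RowOK c A) (h' : RowOK c D) :
    RowOK (Sum.elim c c) (fromBlocks A 0 0 D) := by
  rintro (i | i) b
  · obtain ⟨j, ε, hε, hj, hA⟩ := h i b
    refine ⟨Sum.inl j, ε, hε, hj, ?_⟩
    rintro (j' | j') hc
    · simpa using hA j' hc
    · simp
  · obtain ⟨j, ε, hε, hj, hA⟩ := h' i b
    refine ⟨Sum.inr j, ε, hε, hj, ?_⟩
    rintro (j' | j') hc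
    · simp
    · simpa using hA j' hc

lemma RowOK.anti {c : I → Bool} {B C : Matrix I I ℤ} (h : RowOK c B) (h' : RowOK c C) :
    RowOK (Sum.elim c c) (fromBlocks 0 B C 0) := by
  rintro (i | i) b
  · obtain ⟨j, ε, hε, hj, hA⟩ := h i b
    refine ⟨Sum.inr j, ε, hε, hj, ?_⟩
    rintro (j' | j') hc
    · simp
    · simpa using hA j' hc
  · obtain ⟨j, ε, hε, hj, hA⟩ := h' i b
    refine ⟨Sum.inl j, ε, hε, hj, ?_⟩
    rintro (j' | j') hc
    · simpa using hA j' hc
    · simp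

lemma OK.diag {c : I → Bool} {A D : Matrix I I ℤ} (h : OK c A) (h' : OK c D) :
    OK (Sum.elim c c) (fromBlocks A 0 0 D) := by
  refine ⟨h.1.diag h'.1, ?_⟩
  rw [fromBlocks_transpose, Matrix.transpose_zero]
  exact h.2.diag h'.2

lemma OK.anti {c : I → Bool} {B C : Matrix I I ℤ} (h : OK c B) (h' : OK c C) :
    OK (Sum.elim c c) (fromBlocks 0 B C 0) := by
  refine ⟨h.1.anti h'.1, ?_⟩
  rw [fromBlocks_transpose, Matrix.transpose_zero]
  exact h'.2.anti h.2

end OK

end Pool.Agent.MP_d8b1b3_co.ModA.Asym
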