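import Mathlib
import Pool.Agent.MP_d8b1b3_co.ModA.Arith
import Pool.Agent.MP_d8b1b3_co.ModA.AsymHad

/-!
Assembly of the asymptotic existence theorem for modular Hadamard matrices.
-/

set_option autoImplicit false

namespace Pool.Agent.MP_d8b1b3_co.ModA

open Matrix

lemma idem_dvd {M e d : ℕ} (he : (e : ZMod M) * e = e) (hd : d ∣ M) :
    (d : ℤ) ∣ (e : ℤ) * ((e : ℤ) - 1) := by
  have h1 : (((e : ℤ) * ((e : ℤ) - 1) : ℤ) : ZMod M) = 0 := by
    push_cast; linear_combination he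
  rw [ZMod.intCast_zmod_eq_zero_iff_dvd] at h1
  exact dvd_trans (Int.natCast_dvd_natCast.2 hd) h1

lemma idem_prime {M e p : ℕ} (he : (e : ZMod M) * e = e) (hp : p.Prime) (hd : p ∣ M)
    (hn : ¬ p ∣ e) : (p : ℤ) ∣ (e : ℤ) - 1 := by
  rcases (Nat.prime_iff_prime_int.1 hp).dvd_or_dvd (idem_dvd he hd) with h | h
  · exact absurd (Int.natCast_dvd_natCast.1 h) hn
  · exact h

lemma idem_four {M e : ℕ} (he : (e : ZMod M) * e = e) (hd : 4 ∣ M) :
    (2 ∣ e → (4 : ℤ) ∣ e) ∧ (¬ 2 ∣ e → (4 : ℤ) ∣ (e : ℤ) - 1) := by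
  have h : (4 : ℤ) ∣ (e : ℤ) * ((e : ℤ) - 1) := idem_dvd he hd
  obtain ⟨a, r, hr, rfl⟩ : ∃ a r : ℕ, r < 4 ∧ e = 4 * a + r :=
    ⟨e / 4, e % 4, Nat.mod_lt _ (by norm_num), (Nat.div_add_mod e 4).symm⟩
  have h' : (4 : ℤ) ∣ (r : ℤ) * ((r : ℤ) - 1) := by
    have : ((4 * a + r : ℕ) : ℤ) * (((4 * a + r : ℕ) : ℤ) - 1) =
        4 * (a * (4 * a + 2 * r - 1)) + (r : ℤ) * ((r : ℤ) - 1) := by push_cast; ring
    rw [this] at h
    exact (dvd_add_right (dvd_mul_right _ _)).1 h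
  interval_cases r
  · constructor <;> intro _ <;> omega
  · constructor <;> intro _ <;> omega
  · norm_num at h'
  · norm_num at h'

/-- the residue condition -/
def Cond (M g : ℕ) : Prop :=
  ¬ 4 ∣ g ∧ ∀ p, p.Prime → 5 ≤ p → p ∣ M → g % p = 1 ∨ g % p = 2 ∨ g % p = 3

lemma exists_cof {M : ℕ} [NeZero M] (h4 : 4 ∣ M) {g : ℕ} (hg : Cond M g) :
    ∃ k : (Fin 2 ⊕ (Unit ⊕ Unit)) → ZMod M, (g : ZMod M) = ∑ i, k i ∧ Cof k := by
  classical
  have hM : M ≠ 0 := NeZero.ne M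
  let md : ℕ → ℕ := fun p => if p = 2 then 4 else p
  obtain ⟨e2, c2, i2, d2⟩ := cof_idem (M := M) (M.primeFactors.filter fun p => g % md p = 1)
    (fun p hp => Nat.prime_of_mem_primeFactors (Finset.mem_filter.1 hp).1)
  obtain ⟨e3, c3, i3, d3⟩ := cof_idem (M := M)
    (M.primeFactors.filter fun p => g % md p = 1 ∨ g % md p = 2)
    (fun p hp => Nat.prime_of_mem_primeFactors (Finset.mem_filter.1 hp).1)
  have m2 : ∀ p, p.Prime → p ∣ M → (p ∣ e2 ↔ g % md p = 1) := by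
    intro p hp hd
    rw [d2 p hp, Finset.mem_filter, Nat.mem_primeFactors]
    exact ⟨fun h => h.2, fun h => ⟨⟨hp, hd, hM⟩, h⟩⟩
  have m3 : ∀ p, p.Prime → p ∣ M → (p ∣ e3 ↔ g % md p = 1 ∨ g % md p = 2) := by
    intro p hp hd
    rw [d3 p hp, Finset.mem_filter, Nat.mem_primeFactors]
    exact ⟨fun h => h.2, fun h => ⟨⟨hp, hd, hM⟩, h⟩⟩
  set X : ℤ := (g : ℤ) - e2 - e3 - 1 with hX
  have X4 : (4 : ℤ) ∣ X := by
    have a2 := m2 2 Nat.prime_two (dvd_trans (by norm_num) h4)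
    have a3 := m3 2 Nat.prime_two (dvd_trans (by norm_num) h4)
    simp only [md, if_true] at a2 a3
    have b2 := idem_four i2 h4
    have b3 := idem_four i3 h4
    have hg4 := hg.1
    by_cases x2 : 2 ∣ e2 <;> by_cases x3 : 2 ∣ e3
    · have := b2.1 x2; have := b3.1 x3; have := a2.1 x2; omega
    · have := a2.1 x2; exact absurd (a3.2 (Or.inl this)) x3
    · have := b2.2 x2; have := b3.1 x3; have := a3.1 x3; have := mt a2.2 x2; omega
    · have := b2.2 x2; have := b3.2 x3; have := mt a3.2 x3; omega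
  have Xp : ∀ p, p.Prime → p ≠ 2 → p ∣ M → (p : ℤ) ∣ X := by
    intro p hp hp2 hd
    have a2 := m2 p hp hd
    have a3 := m3 p hp hd
    simp only [md, if_neg hp2] at a2 a3
    have hdiv : ∀ r : ℕ, g % p = r % p → (p : ℤ) ∣ (g : ℤ) - r := by
      intro r hr
      exact (Nat.modEq_iff_dvd.1 (show r ≡ g [MOD p] from hr.symm))
    have hp3 : 3 ≤ p := by have := hp.two_le; omega
    have r1 : 1 % p = 1 := Nat.mod_eq_of_lt (by omega)
    have r2 : 2 % p = 2 := Nat.mod_eq_of_lt (by omega)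
    by_cases x2 : p ∣ e2 <;> by_cases x3 : p ∣ e3
    · have h1 := hdiv 1 (by rw [r1]; exact a2.1 x2)
      have : X = ((g : ℤ) - (1 : ℕ)) - e2 - e3 := by push_cast; ring
      rw [this]
      exact dvd_sub (dvd_sub h1 (Int.natCast_dvd_natCast.2 x2)) (Int.natCast_dvd_natCast.2 x3)
    · exact absurd (a3.2 (Or.inl (a2.1 x2))) x3
    · have h1 := hdiv 2 (by rw [r2]; exact (a3.1 x3).resolve_left (mt a2.2 x2))
      have : X = ((g : ℤ) - (2 : ℕ)) - (e2 - 1) - e3 := by push_cast; ring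
      rw [this]
      exact dvd_sub (dvd_sub h1 (idem_prime i2 hp hd x2)) (Int.natCast_dvd_natCast.2 x3)
    · have hn := mt a3.2 x3
      have h3 : g % p = 3 % p := by
        by_cases hp5 : 5 ≤ p
        · have := hg.2 p hp hp5 hd
          rw [Nat.mod_eq_of_lt (show 3 < p by omega)]
          omega
        · have hp4 : p ≠ 4 := by rintro rfl; exact absurd hp (by norm_num)
          obtain rfl : p = 3 := by omega
          omega
      have h1 := hdiv 3 h3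
      have : X = ((g : ℤ) - (3 : ℕ)) - (e2 - 1) - (e3 - 1) := by push_cast; ring
      rw [this]
      exact dvd_sub (dvd_sub h1 (idem_prime i2 hp hd x2)) (idem_prime i3 hp hd x3)
  have hpos : 0 < X + 4 * M * (e2 + e3 + 2) := by
    have : (1 : ℤ) ≤ M := by exact_mod_cast Nat.one_le_iff_ne_zero.2 hM
    have h0 : (0 : ℤ) ≤ (e2 : ℤ) + e3 + 2 := by positivity
    nlinarith
  obtain ⟨y, hy⟩ := X4
  obtain ⟨w', hw'⟩ : ∃ w' : ℕ, (w' : ℤ) = y + M * (e2 + e3 + 2) :=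
    ⟨(y + M * (e2 + e3 + 2)).toNat, Int.toNat_of_nonneg (by nlinarith)⟩
  have hw0 : 0 < w' := by
    have : (0 : ℤ) < w' := by nlinarith
    exact_mod_cast this
  obtain ⟨k, hk, ck⟩ := cof_pair (M := M) (2 * w') (by omega) (dvd_mul_right _ _) (by
    intro p hp hd
    by_cases hp2 : p = 2
    · subst hp2; exact dvd_mul_right _ _
    · have h1 : (p : ℤ) ∣ 4 * y := hy ▸ Xp p hp hp2 hd
      have h2 : (p : ℤ) ∣ y := by
        rcases (Nat.prime_iff_prime_int.1 hp).dvd_or_dvd h1 with h | h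
        · have h' : p ∣ 2 ^ 2 := by exact_mod_cast h
          exact absurd ((Nat.prime_dvd_prime_iff_eq hp Nat.prime_two).1 (hp.dvd_of_dvd_pow h')) hp2
        · exact h
      have h3 : (p : ℤ) ∣ w' := by
        rw [hw']
        exact dvd_add h2 (dvd_mul_of_dvd_left (Int.natCast_dvd_natCast.2 hd) _)
      exact dvd_mul_of_dvd_right (Int.natCast_dvd_natCast.1 h3) 2)
  refine ⟨_, ?_, ck.join (c2.join c3)⟩
  simp only [Fintype.sum_sum_type, Sum.elim_inl, Sum.elim_inr, Finset.univ_unique,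
    Finset.sum_singleton, hk]
  have h1 := congrArg (Int.cast : ℤ → ZMod M) hw'
  have h2 := congrArg (Int.cast : ℤ → ZMod M) (hX.symm.trans hy)
  push_cast at h1 h2 ⊢
  rw [ZMod.natCast_self] at h1
  linear_combination h2 - 4 * h1

lemma large_part {M : ℕ} [NeZero M] (h4 : 4 ∣ M) :
    ∃ g0, ∀ g, g0 ≤ g → Cond M g → MH (ZMod M) (Fin (4 * g)) := by
  have key : ∀ c : ZMod M, ∃ g0 : ℕ, ∀ g : ℕ, g0 ≤ g → (g : ZMod M) = c → Cond M g →
      MH (ZMod M) (Fin (4 * g)) := by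
    intro c
    by_cases h : ∃ g : ℕ, (g : ZMod M) = c ∧ Cond M g
    · obtain ⟨g1, hc, hg1⟩ := h
      obtain ⟨k, hk, g0, h0⟩ := exists_cof h4 hg1
      exact ⟨g0, fun g hg hgc _ => (h0 g hg).mh (by rw [hgc, ← hc, hk])⟩
    · exact ⟨0, fun g _ hgc hg => absurd ⟨g, hgc, hg⟩ h⟩
  choose f hf using key
  exact ⟨Finset.univ.sup f, fun g hg hc =>
    hf _ g (le_trans (Finset.le_sup (Finset.mem_univ _)) hg) rfl hc⟩

lemma small_part (g : ℕ) (hg : 0 < g) : ∃ t, ∀ s, t ≤ s → Asym.HadOn (Fin (2 ^ s * g)) := by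
  have key : ∀ n, (∃ t, Asym.G t (n + 1)) ∧ ∃ t, Asym.G t (n + 2) := by
    intro n
    induction n with
    | zero => exact ⟨⟨0, Asym.G_one⟩, ⟨0, Asym.G_one.mul Asym.G_one⟩⟩
    | succ n ih =>
      obtain ⟨⟨t, ht⟩, h2⟩ := ih
      exact ⟨h2, ⟨_, ht.add Asym.G_one⟩⟩
  obtain ⟨n, rfl⟩ : ∃ n, g = n + 1 := ⟨g - 1, by omega⟩
  obtain ⟨t, ht⟩ := (key n).1
  refine ⟨t + 2, fun s hs => ?_⟩
  obtain ⟨r, rfl⟩ : ∃ r, s = r + 2 := ⟨s - 2, by omega⟩
  exact (ht.mono (by omega)).had hg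

lemma MH.lift {m M n : ℕ} (hm : m ∣ M) (h : MH (ZMod M) (Fin n)) :
    ∃ H : Matrix (Fin n) (Fin n) ℤ, (∀ i j, H i j = 1 ∨ H i j = -1) ∧
      ∀ i j, i ≠ j → (m : ℤ) ∣ (H * Hᵀ) i j := by
  classical
  obtain ⟨X, c, h1, h2⟩ := h
  let H : Matrix (Fin n) (Fin n) ℤ := Matrix.of fun i j => if X i j = 1 then 1 else -1
  have hc : ∀ i j, ((H i j : ℤ) : ZMod M) = X i j := by
    intro i j
    simp only [H, Matrix.of_apply]
    split_ifs with h
    · simp [h]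
    · simp [(h1 i j).resolve_left h]
  refine ⟨H, fun i j => ?_, fun i j hij => ?_⟩
  · simp only [H, Matrix.of_apply]
    split_ifs <;> simp
  · refine dvd_trans (Int.natCast_dvd_natCast.2 hm) ?_
    rw [← ZMod.intCast_zmod_eq_zero_iff_dvd]
    have := congrFun (congrFun h2 i) j
    simp only [Matrix.mul_apply, Matrix.transpose_apply, Matrix.smul_apply, Matrix.one_apply,
      if_neg hij, smul_zero] at this
    simp only [Matrix.mul_apply, Matrix.transpose_apply]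
    push_cast
    simp only [hc, this]

theorem main (m : ℕ) (hm : 0 < m) : ∃ n0 : ℕ, ∀ s g : ℕ, 2 ≤ s → ¬ 4 ∣ g → n0 ≤ 2 ^ s * g →
    (∀ p : ℕ, p.Prime → 5 ≤ p → p ∣ m → g % p = 1 ∨ g % p = 2 ∨ g % p = 3) →
    ∃ H : Matrix (Fin (2 ^ s * g)) (Fin (2 ^ s * g)) ℤ, (∀ i j, H i j = 1 ∨ H i j = -1) ∧
      ∀ i j, i ≠ j → (m : ℤ) ∣ (H * Hᵀ) i j := by
  have : NeZero (4 * m) := ⟨by omega⟩
  obtain ⟨g0, h0⟩ := large_part (M := 4 * m) (dvd_mul_right _ _)
  have hs : ∀ g : ℕ, ∃ t, 0 < g → ∀ s, t ≤ s → Asym.HadOn (Fin (2 ^ s * g)) := by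
    intro g
    by_cases hg : 0 < g
    · obtain ⟨t, ht⟩ := small_part g hg
      exact ⟨t, fun _ => ht⟩
    · exact ⟨0, fun h => absurd h hg⟩
  choose T hT using hs
  refine ⟨2 ^ (Finset.range g0).sup T * g0, fun s g h2 h4 hn hp => ?_⟩
  by_cases hg : g0 ≤ g
  · have h1 : MH (ZMod (4 * m)) (Fin (4 * g)) := by
      refine h0 g hg ⟨h4, fun p hpp h5 hd => hp p hpp h5 ?_⟩
      rcases (Nat.Prime.dvd_mul hpp).1 hd with h | h
      · have := Nat.le_of_dvd (by norm_num) h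
        omega
      · exact h
    obtain ⟨r, rfl⟩ : ∃ r, s = r + 2 := ⟨s - 2, by omega⟩
    exact ((h1.two_pow r).of_card (by simp; ring)).lift (dvd_mul_left _ _)
  · have hg0 : 0 < g := by
      rcases Nat.eq_zero_or_pos g with rfl | h
      · exact absurd (dvd_zero 4) h4
      · exact h
    have hle : T g ≤ s := by
      have h1 : T g ≤ (Finset.range g0).sup T := Finset.le_sup (Finset.mem_range.2 (by omega))
      by_contra hlt
      have h3 : 2 ^ s < 2 ^ (Finset.range g0).sup T := Nat.pow_lt_pow_right (by norm_num) (by omega)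
      have h5 : 2 ^ s * g < 2 ^ (Finset.range g0).sup T * g0 :=
        Nat.mul_lt_mul'' h3 (by omega)
      omega
    obtain ⟨H, h1, h2⟩ := hT g hg0 s hle
    refine ⟨H, h1, fun i j hij => ?_⟩
    rw [h2]
    simp [hij]

end Pool.Agent.MP_d8b1b3_co.ModA
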