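import Mathlib
import Pool.Agent.MP_d8b1b3_co.ModA.All

set_option autoImplicit false

namespace Pool.Agent.Results.MP_d8b1b3_co.ModularAsymptotic

/-- For every modulus `m` there is `n0` such that an `m`-modular Hadamard matrix of order `n`
exists for every multiple `n` of `4` with `n ≥ n0`. -/
theorem result (m : ℕ) (hm : 0 < m) :
    ∃ n0 : ℕ, ∀ n : ℕ, n0 ≤ n → 4 ∣ n →
      ∃ H : Matrix (Fin n) (Fin n) ℤ,
        (∀ i j, H i j = 1 ∨ H i j = -1) ∧
        ∀ i j, i ≠ j → (m : ℤ) ∣ (H * Matrix.transpose H) i j :=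
  Pool.Agent.MP_d8b1b3_co.ModA.all_moduli m hm

end Pool.Agent.Results.MP_d8b1b3_co.ModularAsymptotic
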